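import Mathlib
import Pool.Agent.Helper11.FrobWeil
import Pool.Agent.Helper11.ObsTypes
import Pool.Agent.Helper11.Zt.St.Z1

/-!
# The Frobenius endomorphism is a symmetry of every Weil cohomology theory
-/

universe u v w t

open CategoryTheory AlgebraicGeometry TensorProduct

namespace Pool.Agent.Helper11.Zt

open Pool.Agent.Helper10
open SmProjVar

section Degree

variable {k : Type u} [Field k]

lemma essFiniteType_residue (X : SmProjVar k) (x : X.toOver.left) :
    (Spec.preimage (X.toOver.left.fromSpecResidueField x ≫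
      X.toOver.hom)).hom.EssFiniteType := by
  set f : X.toOver.left ⟶ Spec (CommRingCat.of k) := X.toOver.hom with hf
  set p := f x with hp
  have h1 : X.toOver.left.fromSpecResidueField x ≫ f =
      Spec.map (CommRingCat.ofHom (algebraMap (CommRingCat.of k) p.asIdeal.ResidueField) ≫
        (Scheme.Spec.residueFieldIso (CommRingCat.of k) p).inv ≫ f.residueFieldMap x) := by
    rw [Spec.map_comp, Spec.map_comp, Category.assoc,
      Scheme.Spec.map_residueFieldIso_inv_eq_fromSpecResidueField,
      Scheme.Hom.SpecMap_residueFieldMap_fromSpecResidueField]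
  have h2 : Spec.preimage (X.toOver.left.fromSpecResidueField x ≫ f) =
      CommRingCat.ofHom (algebraMap (CommRingCat.of k) p.asIdeal.ResidueField) ≫
        (Scheme.Spec.residueFieldIso (CommRingCat.of k) p).inv ≫ f.residueFieldMap x := by
    rw [h1]
    exact Spec.preimage_map _
  rw [h2]
  have h3 : (f.residueFieldMap x).hom.EssFiniteType := by
    have h1 := LocallyOfFiniteType.stalkMap f x
    exact RingHom.EssFiniteType.residueFieldMap h1
  have h4 : (Scheme.Spec.residueFieldIso (CommRingCat.of k) p).inv.hom.EssFiniteType :=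
    (RingHom.FiniteType.of_surjective _
      (Scheme.Spec.residueFieldIso (CommRingCat.of k) p).symm.commRingCatIsoToRingEquiv.surjective).essFiniteType
  have h5 : (algebraMap (CommRingCat.of k) p.asIdeal.ResidueField).EssFiniteType := by
    have : Algebra.EssFiniteType (CommRingCat.of k) p.asIdeal.ResidueField := inferInstance
    rw [RingHom.EssFiniteType]
    convert this
    ext
    rw [Algebra.smul_def]
    rfl
  exact (h5.comp h4).comp h3

/-- The residue degrees of Frobenius. -/
lemma residueDegree_frob_eq [Finite k] (X : SmProjVar k) (x : X.Pt) :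
    (frob X).left.residueDegree x = Nat.card k ^ X.pointDim x := by
  unfold SmProjVar.pointDim
  letI : Algebra k (X.toOver.left.residueField x) :=
    (Spec.preimage (X.toOver.left.fromSpecResidueField x ≫ X.toOver.hom)).hom.toAlgebra
  exact finrank_frob (essFiniteType_residue X x)
    ((frob X).left.residueFieldMap x).hom (frob_residueFieldMap X x)

end Degree

section Symmetry

variable {k : Type u} [Field k] [Finite k] {K : Type v} [Field K] [CharZero K]
  (W : WeilCohomology.{u, v, w} k K)

lemma tr_cy_frob (X : SmProjVar k) (j : ℕ) (c : X.Z j) :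
    ∀ y : W.H X, (Nat.card k : K) ^ X.dim * W.trL X (W.cy X j c * y) =
      (Nat.card k : K) ^ j * W.trL X (W.cy X j c * W.pullA (frob X) y) := by
  refine cy_induction W X j (p := fun z => ∀ y : W.H X,
    (Nat.card k : K) ^ X.dim * W.trL X (z * y) =
      (Nat.card k : K) ^ j * W.trL X (z * W.pullA (frob X) y)) ?_ ?_ ?_ c
  · intro y
    rw [zero_mul, zero_mul, map_zero, mul_zero, mul_zero]
  · intro a b ha hb y
    rw [add_mul, add_mul, map_add, map_add, mul_add, mul_add, ha, hb]
  · intro x hx n y
    have h1 := tr_cy_point_frob W X x j (sZ X j x hx n) (by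
      intro z hz
      rw [sZ_coeff, if_neg hz]) y
    rw [← h1, residueDegree_frob_eq, ← hx, pow_add]
    push_cast
    ring

include W in
lemma pointDim_genericPt (X : SmProjVar k) : X.pointDim X.genericPt = X.dim := by
  classical
  -- the fundamental cycle has codimension zero
  obtain ⟨c, hc, -⟩ := W.cycleClasses.cy_fundamental X
  have h1 := c.2 X.genericPt (by
    have h2 : (c.toCyc).coeff X.genericPt = 1 := by
      rw [hc]
      refine (sCyc_coeff X X.genericPt 1 X.genericPt).trans ?_
      rw [if_pos rfl]
    intro h0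
    have h3 : (c.toCyc).coeff X.genericPt = 0 := h0
    rw [h2] at h3
    exact one_ne_zero h3)
  rwa [add_zero] at h1

lemma tr_frob (X : SmProjVar k) (y : W.H X) :
    W.trL X (W.pullA (frob X) y) = (Nat.card k : K) ^ X.dim * W.trL X y := by
  rw [tr_pull_frob]
  unfold frobDeg
  rw [residueDegree_frob_eq, pointDim_genericPt W]
  push_cast
  rfl

omit [Finite k] in
lemma card_ne_zero' [Finite k] : (Nat.card k : K) ≠ 0 := Nat.cast_ne_zero.mpr Nat.card_pos.ne'

lemma pull_frob_injective (X : SmProjVar k) : Function.Injective (W.pullA (frob X)) := by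
  rw [injective_iff_map_eq_zero]
  intro y hy
  refine (W.trace X).nondegenerate y fun z => ?_
  have h1 := tr_frob W X (y * z)
  rw [map_mul (W.pullA (frob X)), hy, zero_mul, map_zero] at h1
  exact (mul_eq_zero.mp h1.symm).resolve_left (pow_ne_zero _ card_ne_zero')

lemma pull_frob_surjective (X : SmProjVar k) : Function.Surjective (W.pullA (frob X)) := by
  have hfin : Module.Finite K (W.H X) := (W.graded X).finite
  exact (LinearMap.injective_iff_surjective (f := (W.pullA (frob X)).toLinearMap)).mp
    (pull_frob_injective W X)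

/-- Frobenius multiplies the classes of algebraic cycles of codimension `j` by `q ^ j`. -/
lemma pull_frob_cy (X : SmProjVar k) (j : ℕ) (c : X.Z j) :
    W.pullA (frob X) (W.cy X j c) = (Nat.card k : K) ^ j • W.cy X j c := by
  rw [← sub_eq_zero]
  refine (W.trace X).nondegenerate _ fun z => ?_
  obtain ⟨y, rfl⟩ := pull_frob_surjective W X z
  have h1 := tr_cy_frob W X j c y
  have h2 := tr_frob W X (W.cy X j c * y)
  rw [map_mul (W.pullA (frob X)), h1] at h2
  change W.trL X _ = 0
  rw [sub_mul, map_sub, h2, smul_mul_assoc, map_smul, smul_eq_mul, sub_self]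

variable (Ω : Type t) [Field Ω] [Algebra K Ω]

omit [Finite k] in
lemma eq_pullΩ {X Y : SmProjVar k} (f : X.toOver ⟶ Y.toOver)
    {φ : Ω ⊗[K] W.H Y → Ω ⊗[K] W.H X} (hφ : Obs.IsExtension Ω (W.pull f) φ) (z : Ω ⊗[K] W.H Y) :
    φ z = W.pullΩ Ω f z := by
  induction z using TensorProduct.induction_on with
  | zero =>
    have h1 := hφ.map_tmul 0 0
    rw [TensorProduct.zero_tmul, TensorProduct.zero_tmul] at h1
    rw [h1, map_zero]
  | tmul a x => rw [hφ.map_tmul, WeilCohomology.pullΩ_tmul]; rfl
  | add x y hx hy => rw [hφ.map_add, hx, hy, map_add]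

omit [Finite k] in
lemma eq_trΩ {X : SmProjVar k} {τ : Ω ⊗[K] W.H X → Ω} (hτ : Obs.IsExtensionForm Ω (W.tr X) τ)
    (z : Ω ⊗[K] W.H X) : τ z = W.trΩ Ω X z := by
  induction z using TensorProduct.induction_on with
  | zero =>
    have h1 := hτ.map_tmul 0 0
    rw [TensorProduct.zero_tmul, zero_mul] at h1
    rw [h1, map_zero]
  | tmul a x =>
    rw [hτ.map_tmul, WeilCohomology.trΩ_tmul, WeilCohomology.trL_apply, Algebra.smul_def, mul_comm]
  | add x y hx hy => rw [hτ.map_add, hx, hy, map_add]

lemma trΩ_frob (X : SmProjVar k) (z : W.HΩ Ω X) :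
    W.trΩ Ω X (W.pullΩ Ω (frob X) z) = (Nat.card k : Ω) ^ X.dim * W.trΩ Ω X z := by
  refine baseChange_induction_top (p := fun y => W.trΩ Ω X (W.pullΩ Ω (frob X) y) =
    (Nat.card k : Ω) ^ X.dim * W.trΩ Ω X y) ?_ ?_ ?_ ?_ z
  · intro y
    rw [WeilCohomology.pullΩ_tmul, WeilCohomology.trΩ_tmul, WeilCohomology.trΩ_tmul,
      tr_frob, Algebra.smul_def, Algebra.smul_def, map_mul, map_pow, map_natCast]
    ring
  · rw [map_zero, map_zero, mul_zero]
  · intro a b ha hb
    rw [map_add, map_add, map_add, ha, hb, mul_add]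
  · intro a b hb
    rw [map_smul, map_smul, map_smul, hb, smul_eq_mul, smul_eq_mul]
    ring

lemma pullΩ_frob_bijective (X : SmProjVar k) :
    Function.Bijective (W.pullΩ Ω (frob X)) := by
  have hchar : CharZero Ω := charZero_of_injective_algebraMap (algebraMap K Ω).injective
  have hinj : Function.Injective (W.pullΩ Ω (frob X)) := by
    rw [injective_iff_map_eq_zero]
    intro y hy
    refine W.trΩ_pull_mul Ω X y fun z => ?_
    have h1 := trΩ_frob W Ω X (y * (1 ⊗ₜ[K] z))
    rw [map_mul (W.pullΩ Ω (frob X)), hy, zero_mul, map_zero] at h1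
    exact (mul_eq_zero.mp h1.symm).resolve_left
      (pow_ne_zero _ (Nat.cast_ne_zero.mpr Nat.card_pos.ne'))
  have hfin : Module.Finite K (W.H X) := (W.graded X).finite
  have hfin' : Module.Finite Ω (Ω ⊗[K] W.H X) := inferInstance
  exact ⟨hinj, (LinearMap.injective_iff_surjective
    (f := (W.pullΩ Ω (frob X)).toLinearMap)).mp hinj⟩

/-- **The Frobenius endomorphism is a symmetry of every Weil cohomology theory** over a finite
field with `q` elements, with multiplier `q`. -/
theorem isSymmetry_frob : Obs.IsSymmetry W.toCohomologyData Ω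
    (fun X => W.pullΩ Ω (frob X)) (Nat.card k : Ω) where
  aut X := ⟨pullΩ_frob_bijective W Ω X, map_add _, map_smul _, map_one _, map_mul _⟩
  pull {X Y} f φ hφ z := by
    rw [eq_pullΩ W Ω f hφ, eq_pullΩ W Ω f hφ]
    induction z using TensorProduct.induction_on with
    | zero => rw [map_zero, map_zero, map_zero, map_zero]
    | tmul a x =>
      rw [WeilCohomology.pullΩ_tmul, WeilCohomology.pullΩ_tmul, WeilCohomology.pullΩ_tmul,
        WeilCohomology.pullΩ_tmul]
      have h1 := DFunLike.congr_fun (congrArg W.pullA (frob_comp f)) x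
      rw [W.pullA_comp, W.pullA_comp] at h1
      exact congrArg (fun y => a ⊗ₜ[K] y) h1
    | add x y hx hy => rw [map_add, map_add, map_add, map_add, hx, hy]
  ne_zero := by
    have hchar : CharZero Ω := charZero_of_injective_algebraMap (algebraMap K Ω).injective
    exact Nat.cast_ne_zero.mpr Nat.card_pos.ne'
  cycle X j c := by
    change W.pullΩ Ω (frob X) _ = _
    rw [WeilCohomology.pullΩ_tmul, pull_frob_cy, TensorProduct.tmul_smul,
      TensorProduct.smul_tmul', Algebra.smul_def, map_pow, map_natCast, mul_one]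
  trace X τ hτ z := by
    rw [eq_trΩ W Ω hτ, eq_trΩ W Ω hτ]
    exact trΩ_frob W Ω X z

end Symmetry

end Pool.Agent.Helper11.Zt
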