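import Mathlib
import Pool.Agent.Helper11.CanThm

/-!
# Maps induced by algebraic correspondences
-/

universe u v w t

open CategoryTheory TensorProduct Finset Matrix Polynomial

namespace Pool.Agent.Helper11.Zt

open Pool.Agent.Helper10 hiding IsAlgAut parityPart
open SmProjVar SPre Pool.Agent.Helper11.Iso Pool.Agent.Helper11.Obs

variable {k : Type u} [Field k] {K : Type v} [Field K] [CharZero K]
  (W : WeilCohomology.{u, v, w} k K)

lemma one_injective (V : SmProjVar k) : Function.Injective (Obs.one W K (X := V)) := by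
  have h1 : Function.Injective (fun x : W.H V => (1 : K) ⊗ₜ[K] x) :=
    Module.Flat.tensorProduct_mk_injective (R := K) (S := K) (M := W.H V)
  exact h1

lemma one_zero' (V : SmProjVar k) : Obs.one W K (0 : W.H V) = 0 := TensorProduct.tmul_zero _ _

lemma isAlgebraicMap_iff {A V : SmProjVar k} {u : W.H A → W.H V} :
    W.IsAlgebraicMap A V u ↔
      ∃ κ ∈ (W.toSPre K).alg (A.prod V), ∀ x, op κ (Obs.one W K x) = Obs.one W K (u x) := by
  constructor
  · rintro ⟨c, hc, hu⟩
    exact ⟨Obs.one W K c, Obs.one_mem_alg W K hc, op_one W K hu⟩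
  · rintro ⟨κ, hκ, hu⟩
    obtain ⟨c, rfl⟩ := Can.eq_one W _ κ
    have hc : c ∈ W.algClasses (A.prod V) := Obs.mem_of_one_mem_baseChange K hκ
    obtain ⟨u', hu', h⟩ := exists_map W K hc
    have : u' = u := by
      funext x
      refine one_injective W V ?_
      rw [← h, hu]
    rwa [this] at hu'

lemma isAlgebraicMap_zero (A V : SmProjVar k) : W.IsAlgebraicMap A V fun _ => 0 :=
  (isAlgebraicMap_iff W).mpr ⟨0, Submodule.zero_mem _, fun x => by
    rw [op_zero, LinearMap.zero_apply, one_zero']⟩

lemma isAlgebraicMap_add {A V : SmProjVar k} {u u' : W.H A → W.H V}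
    (hu : W.IsAlgebraicMap A V u) (hu' : W.IsAlgebraicMap A V u') :
    W.IsAlgebraicMap A V fun x => u x + u' x := by
  obtain ⟨κ, hκ, h⟩ := (isAlgebraicMap_iff W).mp hu
  obtain ⟨κ', hκ', h'⟩ := (isAlgebraicMap_iff W).mp hu'
  refine (isAlgebraicMap_iff W).mpr ⟨κ + κ', Submodule.add_mem _ hκ hκ', fun x => ?_⟩
  rw [Iso.op_add, LinearMap.add_apply, h, h', Obs.one_add]

lemma isAlgebraicMap_smul {A V : SmProjVar k} (a : K) {u : W.H A → W.H V}
    (hu : W.IsAlgebraicMap A V u) : W.IsAlgebraicMap A V fun x => a • u x := by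
  obtain ⟨κ, hκ, h⟩ := (isAlgebraicMap_iff W).mp hu
  refine (isAlgebraicMap_iff W).mpr ⟨a • κ, Submodule.smul_mem _ _ hκ, fun x => ?_⟩
  rw [op_smul, LinearMap.smul_apply, h, Can.one_smul' W K]
  rfl

lemma isAlgebraicMap_sub {A V : SmProjVar k} {u u' : W.H A → W.H V}
    (hu : W.IsAlgebraicMap A V u) (hu' : W.IsAlgebraicMap A V u') :
    W.IsAlgebraicMap A V fun x => u x - u' x := by
  have h1 := isAlgebraicMap_add W hu (isAlgebraicMap_smul W (-1) hu')
  simp only [neg_smul, one_smul, ← sub_eq_add_neg] at h1
  exact h1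

lemma isAlgebraicMap_comp {A V : SmProjVar k} {u : W.H A → W.H V} {u' : W.H V → W.H V}
    (hu : W.IsAlgebraicMap A V u) (hu' : W.IsAlgebraicMap V V u') :
    W.IsAlgebraicMap A V fun x => u' (u x) := by
  obtain ⟨κ, hκ, h⟩ := (isAlgebraicMap_iff W).mp hu
  obtain ⟨κ', hκ', h'⟩ := (isAlgebraicMap_iff W).mp hu'
  refine (isAlgebraicMap_iff W).mpr ⟨Iso.comp κ κ', comp_mem hκ hκ', fun x => ?_⟩
  rw [Iso.op_comp, h, h']

/-- pull-backs are induced by algebraic correspondences -/
lemma isAlgebraicMap_pull {A V : SmProjVar k} (f : V.toOver ⟶ A.toOver) :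
    W.IsAlgebraicMap A V (W.pull f) := by
  refine (isAlgebraicMap_iff W).mpr ⟨(W.toSPre K).pushF (lift f (𝟙 V.toOver)) 1,
    pushF_mem _ ((W.toSPre K).one_mem V), fun x => ?_⟩
  rw [op_apply, ← pushF_pull_mul, ← pushF_comp, pull_pull, lift_fst, lift_snd, pushF_id, mul_one,
    Obs.pull_one]

lemma isAlgebraicMap_id' (V : SmProjVar k) : W.IsAlgebraicMap V V fun x => x := by
  have h1 := isAlgebraicMap_pull W (𝟙 V.toOver)
  have h2 : W.pull (𝟙 V.toOver) = fun x => x := by
    funext x
    rw [← W.pullA_apply, W.pullA_id]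
    rfl
  rwa [h2] at h1

/-- polynomials in algebraic maps -/
lemma isAlgebraicMap_aeval {V : SmProjVar k} (g : Module.End K (W.H V))
    (hg : W.IsAlgebraicMap V V g) (p : K[X]) : W.IsAlgebraicMap V V (aeval g p) := by
  induction p using Polynomial.induction_on' with
  | add p q hp hq =>
    have h1 := isAlgebraicMap_add W hp hq
    rw [map_add]
    exact h1
  | monomial n a =>
    have h1 : ∀ n : ℕ, W.IsAlgebraicMap V V (g ^ n : Module.End K (W.H V)) := by
      intro n
      induction n with
      | zero => exact isAlgebraicMap_id' W V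
      | succ n ih =>
        have h2 := isAlgebraicMap_comp W ih hg
        have h3 : (fun x => g ((g ^ n : Module.End K (W.H V)) x)) =
            ((g ^ (n + 1) : Module.End K (W.H V)) : W.H V → W.H V) := by
          funext x
          rw [pow_succ', Module.End.mul_apply]
        rwa [h3] at h2
    have h2 := isAlgebraicMap_smul W a (h1 n)
    have h3 : (fun x => a • (g ^ n : Module.End K (W.H V)) x) =
        ((aeval g (monomial n a) : Module.End K (W.H V)) : W.H V → W.H V) := by
      funext x
      rw [aeval_monomial, Module.End.mul_apply, Module.algebraMap_end_apply]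
    rwa [h3] at h2

/-! ### the algebraic classes -/

lemma pairing_trL (V : SmProjVar k) (x y : W.H V) : W.pairing V x y = W.trL V (x * y) := rfl

/-- If the standard conjecture D holds for `V`, the orthogonal projector to the orthogonal
complement of the algebraic classes is algebraic. -/
theorem exists_projector_alg {V : SmProjVar k} (hV : W.StandardD V) {T : Submodule K (W.H V)}
    (hT : ∀ y, y ∈ T ↔ ∀ z ∈ W.algClasses V, W.pairing V z y = 0) :
    ∃ u : W.H V → W.H V, W.IsAlgebraicMap V V u ∧ (∀ y ∈ W.algClasses V, u y = 0) ∧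
      (∀ y ∈ T, u y = y) ∧ (∀ y, u y ∈ T) ∧ ∀ y, y - u y ∈ W.algClasses V := by
  classical
  have hfin : Module.Finite K (W.H V) := (W.graded V).finite
  set M := W.algClasses V with hM
  have hD : ∀ z ∈ M, (∀ a ∈ M, W.pairing V z a = 0) → z = 0 := by
    intro z hz h
    have h1 := (W.d_of_standardD K hV) _ ((Can.isNumTrivial_iff W).mp ⟨hz, h⟩)
    exact one_injective W V (h1.trans (one_zero' W V).symm)
  let b := Module.finBasis K M
  let e : Fin (Module.finrank K M) → W.H V := fun i => (b i : W.H V)
  have heM : ∀ i, e i ∈ M := fun i => (b i).2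
  have hspan : Submodule.span K (Set.range e) = M := by
    have h5 : Set.range e = M.subtype '' Set.range b := by
      rw [← Set.range_comp]; rfl
    rw [h5, ← Submodule.map_span, b.span_eq, Submodule.map_top, Submodule.range_subtype]
  -- the Gram matrix
  have hdet : (Can.gr W e).det ≠ 0 := by
    intro h0
    obtain ⟨v, hv, hv0⟩ := Matrix.exists_vecMul_eq_zero_iff.mpr h0
    refine hv ?_
    have h1 : ∑ i, v i • e i = 0 := by
      refine hD _ (Submodule.sum_mem _ fun i _ => Submodule.smul_mem _ _ (heM i)) fun a ha => ?_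
      rw [← hspan] at ha
      induction ha using Submodule.span_induction with
      | mem a ha =>
        obtain ⟨j, rfl⟩ := ha
        have h2 := congrFun (Can.coorK_sum W e v) j
        rw [hv0, Can.coorK_apply] at h2
        exact h2
      | zero => rw [pairing_trL, mul_zero, map_zero]
      | add x y _ _ hx hy => rw [pairing_trL, mul_add, map_add, ← pairing_trL, ← pairing_trL, hx,
          hy, add_zero]
      | smul c x _ hx => rw [pairing_trL, mul_smul_comm, map_smul, ← pairing_trL, hx, smul_zero]
    have h2 : ∑ i, v i • b i = 0 := by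
      apply Subtype.ext
      rw [Submodule.coe_sum]
      exact h1
    funext i
    exact Fintype.linearIndependent_iff.mp b.linearIndependent v h2 i
  set B := (Can.gr W e)⁻¹ with hB
  have hGB : Can.gr W e * B = 1 := Matrix.mul_nonsing_inv _ (Ne.isUnit hdet)
  -- the projector onto the algebraic classes
  have hq : W.IsAlgebraicMap V V fun x => Can.clsK W e B (Can.coorK W e x) := by
    refine (isAlgebraicMap_iff W).mpr ⟨∑ a, ∑ b, (B.map (algebraMap K K)) a b •
      (W.toSPre K).ext V V (Obs.one W K (e a)) (Obs.one W K (e b)),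
      Submodule.sum_mem _ fun a _ => Submodule.sum_mem _ fun b _ => Submodule.smul_mem _ _
        ((W.toSPre K).mul_mem _ _ _
          ((W.toSPre K).pull_mem _ _ (Obs.one_mem_alg W K (heM a)))
          ((W.toSPre K).pull_mem _ _ (Obs.one_mem_alg W K (heM b)))), fun x => ?_⟩
    rw [op_bilinear, ← Can.cls_embV W K e B]
    congr 1
    funext j
    rw [coor_apply, Obs.tr_one_mul]
    rfl
  have hmem : ∀ y, Can.clsK W e B (Can.coorK W e y) ∈ M := fun y => by
    have h1 := Can.clsK_mem W e B (Can.coorK W e y)
    rwa [hspan] at h1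
  refine ⟨fun x => x - Can.clsK W e B (Can.coorK W e x),
    isAlgebraicMap_sub W (isAlgebraicMap_id' W V) hq, fun y hy => ?_, fun y hy => ?_,
    fun y => ?_, fun y => ?_⟩
  · change y - Can.clsK W e B (Can.coorK W e y) = 0
    rw [Can.clsK_coorK W e hGB (by rw [hspan]; exact hy), sub_self]
  · have h1 : Can.coorK W e y = 0 := by
      funext j
      have h2 := (hT y).mp hy (e j) (heM j)
      rw [Can.coorK_apply, Pi.zero_apply, pairing_trL,
        ← W.evK_comm V (e j) y (W.algClasses_le_evK V (heM j))]
      exact h2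
    change y - Can.clsK W e B (Can.coorK W e y) = y
    rw [h1, map_zero, sub_zero]
  · rw [hT]
    intro z hz
    have h1 : Can.coorK W e (y - Can.clsK W e B (Can.coorK W e y)) = 0 := by
      rw [map_sub, Can.coorK_clsK W e hGB, sub_self]
    rw [← hspan] at hz
    induction hz using Submodule.span_induction with
    | mem a ha =>
      obtain ⟨j, rfl⟩ := ha
      have h2 := congrFun h1 j
      rw [Can.coorK_apply, Pi.zero_apply, pairing_trL] at h2
      rw [pairing_trL, W.evK_comm V (e j) _ (W.algClasses_le_evK V (heM j))]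
      exact h2
    | zero => rw [pairing_trL, zero_mul, map_zero]
    | add x y _ _ hx hy => rw [pairing_trL, add_mul, map_add, ← pairing_trL, ← pairing_trL, hx,
        hy, add_zero]
    | smul c x _ hx => rw [pairing_trL, smul_mul_assoc, map_smul, ← pairing_trL, hx, smul_zero]
  · change y - (y - Can.clsK W e B (Can.coorK W e y)) ∈ M
    rw [sub_sub_cancel]
    exact hmem y

end Pool.Agent.Helper11.Zt
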