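import Mathlib
import Pool.Agent.Helper11.CanTypes
import Pool.Agent.Helper11.Frobenius

/-!
# Frobenius and the transcendental part of cohomology: definitions
-/

universe u v w

open CategoryTheory TensorProduct Polynomial

namespace Pool.Agent.Helper11.Zt

open Pool.Agent.Helper10 SmProjVar
open Pool.Agent.Helper11.Obs (imageOfPowers)

section Linear

variable {K : Type v} [Field K] {M : Type w} [AddCommGroup M] [Module K M]

/-- `p` is the characteristic polynomial of the map `g` on the subspace `T` of `M`: for some basis
`b` of `T` and some matrix `A`, `g (b j) = ∑ i, A i j • b i` for all `j`, and `p` is the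
characteristic polynomial of `A`. -/
def IsCharpolyOn (g : M → M) (T : Submodule K M) (p : K[X]) : Prop :=
  ∃ (n : ℕ) (b : Module.Basis (Fin n) K T) (A : Matrix (Fin n) (Fin n) K),
    (∀ j, g (b j : M) = ∑ i, A i j • (b i : M)) ∧ p = A.charpoly

/-- The polynomial the roots of which are the `s / a`, for the roots `a` of the monic polynomial `f`
with `f(0) ≠ 0` (with leading coefficient `f(0)`). -/
noncomputable def dualPoly (s : K) (f : K[X]) : K[X] := f.reverse.scaleRoots s

end Linear

variable {k : Type u} [Field k] {K : Type v} [Field K] (W : CohomologyData.{u, v, w} k K)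

/-- `T` is the transcendental part of `H(V)`: the space of the classes which are orthogonal, for
Poincaré duality, to the classes of all algebraic cycles. -/
def IsTranscendentalPart (V : SmProjVar k) (T : Submodule K (W.H V)) : Prop :=
  ∀ y, y ∈ T ↔ ∀ z ∈ W.algClasses V, W.pairing V z y = 0

variable [Finite k]

/-- `E` is a Frobenius piece of the cohomology of `V`, relative to `X`: a subspace of `H(V)` which
is stable under Frobenius, such that some algebraic correspondence acts on `H(V)` as the orthogonal
projector to `E` (for the Poincaré duality pairing), and such that `H(V)` is the sum of `E` and of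
the images of the cohomology of the powers of `X` under algebraic correspondences. -/
structure IsFrobeniusPiece (X V : SmProjVar k) (E : Submodule K (W.H V)) : Prop where
  frobenius : ∀ y ∈ E, W.pull (frob V) y ∈ E
  projector : ∃ u : W.H V → W.H V, W.IsAlgebraicMap V V u ∧
    ∀ y, u y ∈ E ∧ ∀ x ∈ E, W.pairing V x (u y) = W.pairing V x y
  sup : imageOfPowers W X V ⊔ E = ⊤

/-- `P` is the characteristic polynomial of Frobenius on `E`, and for all subspaces `F` of `E` which
are stable under all algebraic correspondences which map `E` to `E`, the characteristic polynomial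
`f` of Frobenius on `F` is prime to `P / f`. (This holds if `P` has no multiple factors.) -/
structure IsMultiplicityFree (V : SmProjVar k) (E : Submodule K (W.H V)) (P : K[X]) : Prop where
  charpoly : IsCharpolyOn (W.pull (frob V)) E P
  coprime : ∀ F ≤ E, (∀ u : W.H V → W.H V, W.IsAlgebraicMap V V u → (∀ y ∈ E, u y ∈ E) →
    ∀ y ∈ F, u y ∈ F) → ∀ f g : K[X], IsCharpolyOn (W.pull (frob V)) F f → P = f * g →
      IsCoprime f g

/-- The group generated by the number `q` of elements of the finite field `k` and by the eigenvalues
of the `q`-Frobenius endomorphism on `H(X)`, in an algebraic closure of `K`. (If `X` is a point,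
this is the group of the powers of `q`.) -/
noncomputable def frobeniusGroup (X : SmProjVar k) : Subgroup (AlgebraicClosure K)ˣ :=
  Subgroup.closure {a | (a : AlgebraicClosure K) = (Nat.card k : AlgebraicClosure K) ∨
    ∃ l : W.H X →ₗ[K] AlgebraicClosure K, l ≠ 0 ∧
      ∀ x, l (W.pull (frob X) x) = (a : AlgebraicClosure K) * l x}

/-- The monic divisors `h j` of `P` represent the irreducible factors of `P`: every monic
irreducible factor `p` of `P` over `K` is self-dual (if `a` is a root of `p`, then `s / a` is a root
of `p`), or it is one of the `h j`, or it is dual to one of the `h j` (the roots of `p` are the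
`s / a`, for the roots `a` of `h j`). -/
structure RepresentFactors (s : K) (P : K[X]) {m : ℕ} (h : Fin m → K[X]) : Prop where
  monic : ∀ j, (h j).Monic
  dvd : ∀ j, h j ∣ P
  rep : ∀ p : K[X], p.Monic → Irreducible p → p ∣ P →
    Associated p (dualPoly s p) ∨ ∃ j, p = h j ∨ Associated p (dualPoly s (h j))

/-- The constant terms of the polynomials `h j` are multiplicatively independent modulo the
group `G`: no product of powers of them, with exponents `n j` which are not all `0`, is in `G`. -/
def IndependentModulo (G : Subgroup (AlgebraicClosure K)ˣ) {m : ℕ} (h : Fin m → K[X]) : Prop :=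
  ∀ n : Fin m → ℤ, (∃ a ∈ G, (a : AlgebraicClosure K) =
    algebraMap K (AlgebraicClosure K) (∏ j, (h j).coeff 0 ^ n j)) → n = 0

end Pool.Agent.Helper11.Zt
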