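import Mathlib
import Pool.Agent.Helper11.Zt.AlgMap
import Pool.Agent.Helper11.Zt.Sym
import Pool.Agent.Helper11.Zt.Types
import Pool.Agent.Helper11.Zt.St.Z5

/-!
# Frobenius pieces of cohomology
-/

universe u v w t

open CategoryTheory TensorProduct Finset Polynomial

namespace Pool.Agent.Helper11.Zt

open Pool.Agent.Helper10 hiding IsAlgAut parityPart
open SmProjVar SPre Pool.Agent.Helper11.Obs Pool.Agent.Helper11.Iso

variable {k : Type u} [Field k] {K : Type v} [Field K] [CharZero K]
  (W : WeilCohomology.{u, v, w} k K)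

instance finite_H (V : SmProjVar k) : Module.Finite K (W.H V) := (W.graded V).finite

/-- even times odd has trace zero -/
lemma trL_ev_od {V : SmProjVar k} {x y : W.H V} (hx : x ∈ W.evK V) (hy : y ∈ W.odK V) :
    W.trL V (x * y) = 0 := by
  have h1 := W.evK_mul_odK V x y hx hy
  refine W.odK_induction V (p := fun z => W.trL V z = 0) (fun i hi z hz => ?_) (map_zero _)
    (fun a b ha hb => by rw [map_add, ha, hb, add_zero]) h1
  exact W.tr_eq_zero_of_gr V (fun h => hi (by rw [h]; exact even_two_mul _)) hz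

lemma trL_od_ev {V : SmProjVar k} {x y : W.H V} (hx : x ∈ W.odK V) (hy : y ∈ W.evK V) :
    W.trL V (x * y) = 0 := by
  rw [← W.evK_comm V y x hy]
  exact trL_ev_od W hy hx

lemma exists_parts {V : SmProjVar k} (y : W.H V) :
    ∃ y₀ ∈ W.evK V, ∃ y₁ ∈ W.odK V, y₀ + y₁ = y := by
  have hy : y ∈ W.evK V ⊔ W.odK V := by rw [(W.isCompl V).sup_eq_top]; trivial
  exact Submodule.mem_sup.mp hy

/-- the pairing is non-degenerate on the right -/
lemma nondegenerate_right {V : SmProjVar k} {z : W.H V} (h : ∀ x, W.trL V (x * z) = 0) :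
    z = 0 := by
  obtain ⟨z₀, hz₀, z₁, hz₁, rfl⟩ := exists_parts W z
  refine (W.trace V).nondegenerate _ fun x => ?_
  obtain ⟨x₀, hx₀, x₁, hx₁, rfl⟩ := exists_parts W x
  have h0 := h x₀
  have h1 := h x₁
  rw [mul_add, map_add, trL_ev_od W hx₀ hz₁, add_zero] at h0
  rw [mul_add, map_add, trL_od_ev W hx₁ hz₀, zero_add] at h1
  change W.trL V _ = 0
  rw [add_mul, mul_add, mul_add, map_add, map_add, map_add, trL_ev_od W hz₀ hx₁,
    trL_od_ev W hz₁ hx₀, W.evK_comm V z₀ x₀ hz₀, W.odK_anti V z₁ x₁ hz₁ hx₁, map_neg, h0, h1]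
  simp

lemma pairing_trL' (V : SmProjVar k) (x y : W.H V) : W.pairing V x y = W.trL V (x * y) := rfl

/-- linear forms are represented -/
lemma exists_rep_right {V : SmProjVar k} (L : W.H V →ₗ[K] K) :
    ∃ z, ∀ x, W.pairing V x z = L x := by
  let φ : W.H V →ₗ[K] Module.Dual K (W.H V) :=
    (LinearMap.mk₂ K (fun x y => W.trL V (x * y))
      (fun a b c => by rw [add_mul, map_add]) (fun a b c => by rw [smul_mul_assoc, map_smul])
      (fun a b c => by rw [mul_add, map_add]) (fun a b c => by rw [mul_smul_comm, map_smul])).flip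
  have hinj : Function.Injective φ := by
    rw [injective_iff_map_eq_zero]
    intro x hx
    exact nondegenerate_right W fun y => LinearMap.congr_fun hx y
  have hsurj : Function.Surjective φ :=
    (LinearMap.injective_iff_surjective_of_finrank_eq_finrank
      (Subspace.dual_finrank_eq).symm).mp hinj
  obtain ⟨z, hz⟩ := hsurj L
  exact ⟨z, fun x => LinearMap.congr_fun hz x⟩

/-- algebraic maps preserve the parity -/
lemma isAlgebraicMap_evK {A V : SmProjVar k} {u : W.H A → W.H V} (hu : W.IsAlgebraicMap A V u)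
    {x : W.H A} (hx : x ∈ W.evK A) : u x ∈ W.evK V := by
  obtain ⟨κ, hκ, h⟩ := (isAlgebraicMap_iff W).mp hu
  refine mem_of_one_mem_baseChange K ?_
  have h1 := Iso.op_ev ((W.toSPre K).alg_le_ev _ hκ) (Obs.one_ev W K hx)
  rw [h] at h1
  exact h1

lemma isAlgebraicMap_odK {A V : SmProjVar k} {u : W.H A → W.H V} (hu : W.IsAlgebraicMap A V u)
    {x : W.H A} (hx : x ∈ W.odK A) : u x ∈ W.odK V := by
  obtain ⟨κ, hκ, h⟩ := (isAlgebraicMap_iff W).mp hu
  refine mem_of_one_mem_baseChange K ?_
  have h1 := Iso.op_od ((W.toSPre K).alg_le_ev _ hκ) (Obs.one_od W K hx)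
  rw [h] at h1
  exact h1

section parts

variable {W} {V : SmProjVar k} (E : Submodule K (W.H V))

/-- the even part (`c = 0`) and the odd part (`c = 1`) of a subspace -/
def part (c : Fin 2) : Submodule K (W.H V) := E ⊓ parityPart W.toCohomologyData V c

variable {E}

lemma part_zero : part E 0 = E ⊓ W.evK V := by
  unfold part
  rw [show ((0 : Fin 2) : ℕ) = 0 from rfl, evK_eq]

lemma part_one : part E 1 = E ⊓ W.odK V := by
  unfold part
  rw [show ((1 : Fin 2) : ℕ) = 1 from rfl, odK_eq]

lemma part_le (c : Fin 2) : part E c ≤ E := inf_le_left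

lemma part_disjoint : Disjoint (part E 0) (part E 1) := by
  rw [part_zero, part_one]
  exact (W.isCompl V).disjoint.mono inf_le_right inf_le_right

/-- different parts are orthogonal -/
lemma part_orth {c c' : Fin 2} (h : c ≠ c') {x y : W.H V} (hx : x ∈ part E c)
    (hy : y ∈ part E c') : W.pairing V x y = 0 := by
  match c, c' with
  | 0, 0 => exact absurd rfl h
  | 1, 1 => exact absurd rfl h
  | 0, 1 =>
    rw [part_zero] at hx
    rw [part_one] at hy
    exact trL_ev_od W hx.2 hy.2
  | 1, 0 =>
    rw [part_one] at hx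
    rw [part_zero] at hy
    exact trL_od_ev W hx.2 hy.2

/-- algebraic maps which map `E` to `E` preserve the parts -/
lemma map_part {u : W.H V → W.H V} (hu : W.IsAlgebraicMap V V u) (huE : ∀ y ∈ E, u y ∈ E)
    (c : Fin 2) {y : W.H V} (hy : y ∈ part E c) : u y ∈ part E c := by
  match c with
  | 0 =>
    rw [part_zero] at hy ⊢
    exact ⟨huE _ hy.1, isAlgebraicMap_evK W hu hy.2⟩
  | 1 =>
    rw [part_one] at hy ⊢
    exact ⟨huE _ hy.1, isAlgebraicMap_odK W hu hy.2⟩

variable {u : W.H V → W.H V} (hu : W.IsAlgebraicMap V V u)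
  (huE : ∀ y, u y ∈ E ∧ ∀ x ∈ E, W.pairing V x (u y) = W.pairing V x y)

include huE in
/-- the pairing is non-degenerate on `E` -/
lemma nondegenerate_E {y : W.H V} (hy : y ∈ E) (h : ∀ x ∈ E, W.pairing V x y = 0) : y = 0 := by
  let φ : E →ₗ[K] Module.Dual K E :=
    (LinearMap.mk₂ K (fun x y : E => W.trL V ((x : W.H V) * y))
      (fun a b c => by rw [Submodule.coe_add, add_mul, map_add])
      (fun a b c => by rw [Submodule.coe_smul, smul_mul_assoc, map_smul])
      (fun a b c => by rw [Submodule.coe_add, mul_add, map_add])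
      (fun a b c => by rw [Submodule.coe_smul, mul_smul_comm, map_smul])).flip
  have hsurj : Function.Surjective φ := by
    intro l
    obtain ⟨L, hL⟩ := LinearMap.exists_extend l
    obtain ⟨z, hz⟩ := exists_rep_right W L
    refine ⟨⟨u z, (huE z).1⟩, LinearMap.ext fun x => ?_⟩
    have h1 := (huE z).2 x x.2
    rw [hz] at h1
    exact h1.trans (LinearMap.congr_fun hL x)
  have hinj : Function.Injective φ :=
    (LinearMap.injective_iff_surjective_of_finrank_eq_finrank
      (Subspace.dual_finrank_eq).symm).mpr hsurj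
  have h2 : φ ⟨y, hy⟩ = 0 := LinearMap.ext fun x => h x x.2
  have h3 := hinj (h2.trans (map_zero φ).symm)
  exact congrArg Subtype.val h3

include huE in
/-- the projector is the identity on `E` -/
lemma projector_eq_self {y : W.H V} (hy : y ∈ E) : u y = y := by
  rw [← sub_eq_zero]
  refine nondegenerate_E huE (Submodule.sub_mem _ (huE y).1 hy) fun x hx => ?_
  have h1 := (huE y).2 x hx
  rw [pairing_trL, mul_sub, map_sub, sub_eq_zero]
  exact h1

include hu huE in
/-- `E` is the sum of its even and its odd part -/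
lemma part_sup : part E 0 ⊔ part E 1 = E := by
  rw [part_zero, part_one]
  refine le_antisymm (sup_le inf_le_left inf_le_left) fun y hy => ?_
  obtain ⟨y₀, hy₀, y₁, hy₁, hy01⟩ := exists_parts W y
  obtain ⟨u', hul⟩ := W.exists_linear hu
  have h1 : y = u y₀ + u y₁ := by
    rw [← hul, ← hul, ← map_add, hy01, hul, projector_eq_self huE hy]
  rw [h1]
  exact Submodule.add_mem_sup ⟨(huE y₀).1, isAlgebraicMap_evK W hu hy₀⟩
    ⟨(huE y₁).1, isAlgebraicMap_odK W hu hy₁⟩

include hu huE in
lemma exists_part_sum {y : W.H V} (hy : y ∈ E) : ∃ z : ∀ c, part E c, ∑ c, (z c : W.H V) = y := by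
  have h1 := hy
  rw [← part_sup hu huE] at h1
  obtain ⟨y₀, hy₀, y₁, hy₁, h2⟩ := Submodule.mem_sup.mp h1
  refine ⟨fun c => match c with
    | 0 => ⟨y₀, hy₀⟩
    | 1 => ⟨y₁, hy₁⟩, ?_⟩
  rw [Fin.sum_univ_two]
  exact h2

include hu huE in
/-- the Poincaré duality pairing is non-degenerate on the parts -/
lemma part_nondegenerate (c : Fin 2) {y : W.H V} (hy : y ∈ part E c)
    (h : ∀ x ∈ part E c, W.pairing V x y = 0) : y = 0 := by
  refine nondegenerate_E huE (part_le c hy) fun x hx => ?_
  obtain ⟨z, rfl⟩ := exists_part_sum hu huE hx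
  rw [pairing_trL, Finset.sum_mul, map_sum]
  refine sum_eq_zero fun c' _ => ?_
  by_cases hc : c' = c
  · subst hc
    exact h _ (z c').2
  · exact part_orth hc (z c').2 hy

end parts

section frobenius

variable [Finite k]

/-- Frobenius on the cohomology of `V` -/
noncomputable def fr (V : SmProjVar k) : Module.End K (W.H V) := (W.pullA (frob V)).toLinearMap

lemma fr_apply {V : SmProjVar k} (x : W.H V) : fr W V x = W.pull (frob V) x := rfl

lemma fr_isAlgebraicMap (V : SmProjVar k) : W.IsAlgebraicMap V V (fr W V) :=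
  isAlgebraicMap_pull W (frob V)

lemma fr_pairing {V : SmProjVar k} (x y : W.H V) :
    W.pairing V (fr W V x) (fr W V y) = (Nat.card k : K) ^ V.dim * W.pairing V x y := by
  have h1 := tr_frob W V (x * y)
  rw [map_mul (W.pullA (frob V))] at h1
  exact h1

variable {W} {V : SmProjVar k} {E : Submodule K (W.H V)}

/-- the characteristic polynomial of Frobenius on a stable subspace -/
lemma charpoly_of_isCharpolyOn {S : Submodule K (W.H V)} (hS : ∀ x ∈ S, fr W V x ∈ S) {P : K[X]}
    (hP : IsCharpolyOn (W.pull (frob V)) S P) : P = ((fr W V).restrict hS).charpoly := by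
  obtain ⟨n, b, A, hA, rfl⟩ := hP
  exact (charpoly_eq_of_basis (fr W V) S hS b A hA).1.symm

/-- the characteristic polynomial of Frobenius on a stable subspace -/
lemma isCharpolyOn_charpoly {S : Submodule K (W.H V)} (hS : ∀ x ∈ S, fr W V x ∈ S) :
    IsCharpolyOn (W.pull (frob V)) S ((fr W V).restrict hS).charpoly := by
  let b := Module.finBasis K S
  refine ⟨Module.finrank K S, b, LinearMap.toMatrix b b ((fr W V).restrict hS), fun j => ?_, ?_⟩
  · have h4 := congrArg (Submodule.subtype S) (b.sum_repr ((fr W V).restrict hS (b j))).symm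
    rw [map_sum] at h4
    refine h4.trans (sum_congr rfl fun i _ => ?_)
    rw [map_smul, LinearMap.toMatrix_apply]
    rfl
  · rw [LinearMap.charpoly_toMatrix]

variable {u : W.H V → W.H V} (hu : W.IsAlgebraicMap V V u)
  (huE : ∀ y, u y ∈ E ∧ ∀ x ∈ E, W.pairing V x (u y) = W.pairing V x y)
  (hfr : ∀ y ∈ E, fr W V y ∈ E)

include hfr in
lemma fr_mem_part (c : Fin 2) {y : W.H V} (hy : y ∈ part E c) : fr W V y ∈ part E c :=
  map_part (fr_isAlgebraicMap W V) hfr c hy

include hu huE hfr in
/-- the characteristic polynomials of Frobenius on the two parts -/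
lemma charpoly_parts {P : K[X]} (hP : IsCharpolyOn (W.pull (frob V)) E P) :
    P = ((fr W V).restrict fun _ h => fr_mem_part hfr 0 h).charpoly *
      ((fr W V).restrict fun _ h => fr_mem_part hfr 1 h).charpoly := by
  rw [charpoly_of_isCharpolyOn hfr hP]
  exact charpoly_sup (fr W V) _ _ E _ _ _ part_disjoint (part_sup hu huE)

include hu huE hfr in
/-- the characteristic polynomials of Frobenius on the two parts are coprime -/
lemma coprime_parts {P : K[X]} (hP : IsMultiplicityFree W.toCohomologyData V E P) :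
    IsCoprime ((fr W V).restrict fun _ h => fr_mem_part hfr 0 h).charpoly
      ((fr W V).restrict fun _ h => fr_mem_part hfr 1 h).charpoly :=
  hP.coprime (part E 0) (part_le 0) (fun _ hv hvE _ hy => map_part hv hvE 0 hy) _ _
    (isCharpolyOn_charpoly _) (charpoly_parts hu huE hfr hP.charpoly)

include hu huE hfr in
/-- the parts are pieces -/
theorem isPiece_part {P : K[X]} (hP : IsMultiplicityFree W.toCohomologyData V E P) (c : Fin 2) :
    IsPiece W.toCohomologyData V (part E c) := by
  have h1 := coprime_parts hu huE hfr hP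
  -- the polynomial
  have hpoly : ∃ p : K[X], (∀ x ∈ part E c, aeval (fr W V) p x = x) ∧
      ∀ c', c' ≠ c → ∀ x ∈ part E c', aeval (fr W V) p x = 0 := by
    match c with
    | 0 =>
      obtain ⟨p, hp0, hp1⟩ := exists_poly (fr W V) (part E 0) (part E 1)
        (fun _ h => fr_mem_part hfr 0 h) (fun _ h => fr_mem_part hfr 1 h) h1
      refine ⟨p, hp0, fun c' hc' => ?_⟩
      have : c' = 1 := by omega
      subst this
      exact hp1
    | 1 =>
      obtain ⟨p, hp0, hp1⟩ := exists_poly (fr W V) (part E 1) (part E 0)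
        (fun _ h => fr_mem_part hfr 1 h) (fun _ h => fr_mem_part hfr 0 h) h1.symm
      refine ⟨p, hp0, fun c' hc' => ?_⟩
      have : c' = 0 := by omega
      subst this
      exact hp1
  obtain ⟨p, hp0, hp1⟩ := hpoly
  refine ⟨⟨c, inf_le_right⟩, fun y => aeval (fr W V) p (u y),
    isAlgebraicMap_comp W hu (isAlgebraicMap_aeval W (fr W V) (fr_isAlgebraicMap W V) p),
    fun y => ?_⟩
  obtain ⟨z, hz⟩ := exists_part_sum hu huE (huE y).1
  have h3 : aeval (fr W V) p (u y) = (z c : W.H V) := by
    rw [← hz, map_sum, Finset.sum_eq_single c]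
    · exact hp0 _ (z c).2
    · intro c' _ hc'
      exact hp1 c' hc' _ (z c').2
    · intro h
      exact absurd (mem_univ c) h
  simp only [h3]
  refine ⟨(z c).2, fun x hx => ?_⟩
  rw [← (huE y).2 x (part_le c hx), ← hz, pairing_trL W V x (∑ c, (z c : W.H V)),
    Finset.mul_sum, map_sum, Finset.sum_eq_single c]
  · rfl
  · intro c' _ hc'
    exact part_orth (Ne.symm hc') hx (z c').2
  · intro h
    exact absurd (mem_univ c) h

end frobenius

end Pool.Agent.Helper11.Zt
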