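import Mathlib
import Pool.Agent.Helper11.Iso.Span

/-!
# Words relative to a fixed variety
-/

universe u v w t

open CategoryTheory

namespace Pool.Agent.Helper11.Zt

open Pool.Agent.Helper10 SmProjVar SPre Pool.Agent.Helper11.Iso

variable {k : Type u} [Field k] {K : Type t} [Field K] {Ω : Type v} [Field Ω] [Algebra K Ω]
  {P : SPre.{u, v, w, t} k K Ω} {X₀ : SmProjVar k}

variable (P X₀) in
/-- a system of letters relative to `X₀`: homogeneous classes, stable under pull-back, the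
contraction with products of which of numerically trivial classes vanishes -/
structure IsLettersFor (L : ∀ T : SmProjVar k, Set (P.H T)) : Prop where
  hom : ∀ T, ∀ y ∈ L T, P.Hom T y
  pull : ∀ {T Z : SmProjVar k} (f : T.toOver ⟶ Z.toOver), ∀ y ∈ L Z, P.pull f y ∈ L T
  zero : ∀ X, PowLike X₀ X → ∀ T, ∀ w ∈ Submonoid.closure (L T), ∀ r, P.rad (X.prod T) r →
    P.contr X T w r = 0

/-! ### words are closed under external products -/

lemma closure_hom2 {L : ∀ T : SmProjVar k, Set (P.H T)} (hL : IsLettersFor P X₀ L) {T : SmProjVar k}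
    {w : P.H T} (hw : w ∈ Submonoid.closure (L T)) : P.Hom T w := by
  induction hw using Submonoid.closure_induction with
  | mem y hy => exact hL.hom T y hy
  | one => exact .inl (P.alg_le_ev T (P.one_mem T))
  | mul x y _ _ hx hy => exact hx.mul P hy

lemma closure_pull2 {L : ∀ T : SmProjVar k, Set (P.H T)} (hL : IsLettersFor P X₀ L)
    {T Z : SmProjVar k} (f : T.toOver ⟶ Z.toOver)
    {w : P.H Z} (hw : w ∈ Submonoid.closure (L Z)) :
    P.pull f w ∈ Submonoid.closure (L T) := by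
  induction hw using Submonoid.closure_induction with
  | mem y hy => exact Submonoid.subset_closure (hL.pull f y hy)
  | one => rw [map_one]; exact Submonoid.one_mem _
  | mul x y _ _ hx hy => rw [map_mul]; exact Submonoid.mul_mem _ hx hy

lemma rgen_ext2 {L : ∀ T : SmProjVar k, Set (P.H T)} (hL : IsLettersFor P X₀ L) {X Y Z : SmProjVar k}
    {y : P.H Y} {z : P.H Z} (hy : y ∈ rgen P L X Y) (hz : z ∈ rgen P L X Z) :
    P.ext Y Z y z ∈ rgen P L X (Y.prod Z) ∨ -P.ext Y Z y z ∈ rgen P L X (Y.prod Z) := by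
  obtain ⟨X₁, T₁, p₁, q₁, c₁, w₁, x₁, hX₁, hc₁, hw₁, hx₁, rfl⟩ := hy
  obtain ⟨X₂, T₂, p₂, q₂, c₂, w₂, x₂, hX₂, hc₂, hw₂, hx₂, rfl⟩ := hz
  rw [← pushF_prodMap_ext]
  have hxx : ∀ x₁', (x₁' = x₁ ∨ x₁' = -x₁) → P.pushF (Iso.prodMap q₁ q₂)
      (P.pull (fst T₁ T₂) c₁ * P.pull (snd T₁ T₂) c₂ *
        (P.pull (fst T₁ T₂) w₁ * P.pull (snd T₁ T₂) w₂) *
        P.pull (Iso.prodMap p₁ p₂) (P.ext X₁ X₂ x₁' x₂)) ∈ rgen P L X (Y.prod Z) := by
    intro x₁' hx
    refine ⟨X₁.prod X₂, T₁.prod T₂, Iso.prodMap p₁ p₂, Iso.prodMap q₁ q₂, _, _, _, hX₁.prod hX₂,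
      P.mul_mem _ _ _ (P.pull_mem _ _ hc₁) (P.pull_mem _ _ hc₂),
      Submonoid.mul_mem _ (closure_pull2 hL _ hw₁) (closure_pull2 hL _ hw₂), ?_, rfl⟩
    have hx₁' : P.Hom X₁ x₁' := by
      rcases hx with rfl | rfl
      · exact hx₁
      · exact hx₁.imp (Submodule.neg_mem _) (Submodule.neg_mem _)
    exact (Hom.pull P _ hx₁').mul P (Hom.pull P _ hx₂)
  have h1 := P.comm_or (T₁.prod T₂) _ _ (Hom.pull P (snd T₁ T₂) (closure_hom2 hL hw₂))
    (Hom.pull P (fst T₁ T₂) (Hom.pull P p₁ hx₁))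
  have h2 : P.ext T₁ T₂ (c₁ * w₁ * P.pull p₁ x₁) (c₂ * w₂ * P.pull p₂ x₂) =
      P.pull (fst T₁ T₂) c₁ * P.pull (snd T₁ T₂) c₂ * P.pull (fst T₁ T₂) w₁ *
        (P.pull (fst T₁ T₂) (P.pull p₁ x₁) * P.pull (snd T₁ T₂) w₂) *
          P.pull (snd T₁ T₂) (P.pull p₂ x₂) := by
    have h3 : ∀ a, a * P.pull (snd T₁ T₂) c₂ = P.pull (snd T₁ T₂) c₂ * a := fun a =>
      (P.ev_comm _ _ _ (P.pull_ev _ _ (P.alg_le_ev _ hc₂))).symm
    unfold SPre.ext
    rw [map_mul (P.pull (fst T₁ T₂)), map_mul (P.pull (fst T₁ T₂)), map_mul (P.pull (snd T₁ T₂)),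
      map_mul (P.pull (snd T₁ T₂))]
    have h4 := h3 (P.pull (fst T₁ T₂) w₁ * P.pull (fst T₁ T₂) (P.pull p₁ x₁))
    calc _ = P.pull (fst T₁ T₂) c₁ * ((P.pull (fst T₁ T₂) w₁ *
          P.pull (fst T₁ T₂) (P.pull p₁ x₁)) * P.pull (snd T₁ T₂) c₂) *
          P.pull (snd T₁ T₂) w₂ * P.pull (snd T₁ T₂) (P.pull p₂ x₂) := by noncomm_ring
      _ = _ := by rw [h4]; noncomm_ring
  have h5 : ∀ x₁', P.pull (fst T₁ T₂) c₁ * P.pull (snd T₁ T₂) c₂ *
        (P.pull (fst T₁ T₂) w₁ * P.pull (snd T₁ T₂) w₂) *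
        P.pull (Iso.prodMap p₁ p₂) (P.ext X₁ X₂ x₁' x₂) =
      P.pull (fst T₁ T₂) c₁ * P.pull (snd T₁ T₂) c₂ * P.pull (fst T₁ T₂) w₁ *
        (P.pull (snd T₁ T₂) w₂ * P.pull (fst T₁ T₂) (P.pull p₁ x₁')) *
          P.pull (snd T₁ T₂) (P.pull p₂ x₂) := by
    intro x₁'
    rw [pull_prodMap_ext]
    unfold SPre.ext
    noncomm_ring
  rcases h1 with h1 | h1
  · left
    rw [h2, ← h1, ← h5]
    exact hxx x₁ (.inl rfl)
  · right
    rw [← map_neg, h2]
    have h6 : -(P.pull (fst T₁ T₂) c₁ * P.pull (snd T₁ T₂) c₂ * P.pull (fst T₁ T₂) w₁ *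
        (P.pull (fst T₁ T₂) (P.pull p₁ x₁) * P.pull (snd T₁ T₂) w₂) *
          P.pull (snd T₁ T₂) (P.pull p₂ x₂)) =
        P.pull (fst T₁ T₂) c₁ * P.pull (snd T₁ T₂) c₂ * P.pull (fst T₁ T₂) w₁ *
        (P.pull (snd T₁ T₂) w₂ * P.pull (fst T₁ T₂) (P.pull p₁ x₁)) *
          P.pull (snd T₁ T₂) (P.pull p₂ x₂) := by
      rw [h1]; noncomm_ring
    rw [h6, ← h5]
    exact hxx x₁ (.inl rfl)

lemma span_rgen_prod2 {L : ∀ T : SmProjVar k, Set (P.H T)} (hL : IsLettersFor P X₀ L)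
    {X Y Z : SmProjVar k} (hY : Submodule.span Ω (rgen P L X Y) = ⊤)
    (hZ : Submodule.span Ω (rgen P L X Z) = ⊤) :
    Submodule.span Ω (rgen P L X (Y.prod Z)) = ⊤ := by
  rw [eq_top_iff, ← P.span_ext_sets Y Z _ _ hY hZ, Submodule.span_le]
  rintro _ ⟨y, hy, z, hz, rfl⟩
  rcases rgen_ext2 hL hy hz with h | h
  · exact Submodule.subset_span h
  · have := Submodule.neg_mem _ (Submodule.subset_span (R := Ω) h)
    rwa [neg_neg] at this

lemma span_rgen_pow2 {L : ∀ T : SmProjVar k, Set (P.H T)} (hL : IsLettersFor P X₀ L)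
    {X Y : SmProjVar k} (hY : Submodule.span Ω (rgen P L X Y) = ⊤) (n : ℕ) :
    Submodule.span Ω (rgen P L X (Y.selfProd n)) = ⊤ := by
  induction n with
  | zero => exact hY
  | succ n ih => exact span_rgen_prod2 hL ih hY

/-- **D** for varieties spanned relative to `X` by words -/
theorem D_of_span2 {L : ∀ T : SmProjVar k, Set (P.H T)} (hL : IsLettersFor P X₀ L) {Z : SmProjVar k}
    (hZ : Submodule.span Ω (rgen P L X₀ Z) = ⊤) : P.D Z := by
  intro r hr
  refine P.nondeg Z r fun y => ?_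
  have hy : y ∈ Submodule.span Ω (rgen P L X₀ Z) := by rw [hZ]; trivial
  induction hy using Submodule.span_induction with
  | mem y hy =>
    obtain ⟨X', T, p, q, c, w, x, hX', hc, hw, hx, rfl⟩ := hy
    rw [tr_mul_pushF]
    have h1 : P.rad T (P.pull q r * c) := rad_mul (rad_pull q hr) hc
    have h2 := hL.zero X' hX' T w hw _
      (pushF_rad (lift p (𝟙 T.toOver)) h1)
    have h3 := congrArg (fun y => P.tr X' (y * x)) h2
    simp only [zero_mul, map_zero] at h3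
    rw [contr_apply, tr_pushF, mul_assoc, tr_pushF, map_mul (P.pull _), pull_pull, pull_pull,
      lift_fst, lift_snd, P.pull_id] at h3
    rw [← h3]
    congr 1
    change _ = P.pull q r * c * (w * P.pull p x)
    noncomm_ring
  | zero => rw [mul_zero, map_zero]
  | add x y _ _ hx hy => rw [mul_add, map_add, hx, hy, add_zero]
  | smul a x _ hx => rw [mul_smul_comm, map_smul, hx, smul_zero]

/-- **D** for all powers of `X × Y`, if `Y` is spanned relative to `X` by words -/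
theorem DP_of_span2 {L : ∀ T : SmProjVar k, Set (P.H T)} (hL : IsLettersFor P X₀ L) {Y : SmProjVar k}
    (hY : Submodule.span Ω (rgen P L X₀ Y) = ⊤) : P.DP (X₀.prod Y) := fun n =>
  D_of_span2 hL (span_rgen_pow2 hL (span_rgen_prod2 hL (span_rgen_self L X₀) hY) n)

end Pool.Agent.Helper11.Zt
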