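import Mathlib
import Pool.Agent.Helper11.Zt.Types

/-!
# Relations between the factors of the characteristic polynomials of a symmetry: definitions
-/

universe u v w

open CategoryTheory Polynomial

namespace Pool.Agent.Helper11.Zt

open Pool.Agent.Helper10 Pool.Agent.Helper11.Obs

variable {k : Type u} [Field k] {K : Type v} [Field K] (W : CohomologyData.{u, v, w} k K)

/-- A symmetry with multiplier `χ` of the cohomology theory `H`: a family of automorphisms `g X` of
the `K`-algebras `H(X)`, compatible with pull-backs, such that `g X` multiplies the classes of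
algebraic cycles of codimension `j` by `χ ^ j`, and the trace by `χ ^ dim X`. (Examples: the
Frobenius endomorphism, if `k` is a finite field, with `χ` the number of elements of `k`; the action
of the Galois group of `k` on `ℓ`-adic cohomology, with `χ` given by the cyclotomic character.) -/
structure IsSymmetryOver (g : ∀ X : SmProjVar k, W.H X → W.H X) (χ : K) : Prop where
  bijective : ∀ X, Function.Bijective (g X)
  map_add : ∀ X x y, g X (x + y) = g X x + g X y
  map_smul : ∀ X (a : K) x, g X (a • x) = a • g X x
  map_one : ∀ X, g X 1 = 1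
  map_mul : ∀ X x y, g X (x * y) = g X x * g X y
  pull : ∀ {X Y : SmProjVar k} (f : X.toOver ⟶ Y.toOver) y, g X (W.pull f y) = W.pull f (g Y y)
  ne_zero : χ ≠ 0
  cycle : ∀ (X : SmProjVar k) (j : ℕ) (c : X.Z j), g X (W.cy X j c) = χ ^ j • W.cy X j c
  trace : ∀ (X : SmProjVar k) x, W.tr X (g X x) = χ ^ X.dim * W.tr X x

/-- The subspace `F` of `E c` is stable under all maps induced by algebraic correspondences from
`V c` to `V c` which map `E c` to `E c`, and under all symmetries which stabilise all the `E c'`. -/
structure IsStableSubspace {n : ℕ} (V : Fin n → SmProjVar k) (E : Subspaces W V) (c : Fin n)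
    (F : Submodule K (W.H (V c))) : Prop where
  correspondences : ∀ u : W.H (V c) → W.H (V c), W.IsAlgebraicMap (V c) (V c) u →
    (∀ y ∈ E c, u y ∈ E c) → ∀ y ∈ F, u y ∈ F
  symmetries : ∀ (g : ∀ X : SmProjVar k, W.H X → W.H X) (χ : K), IsSymmetryOver W g χ →
    (∀ c', ∀ y ∈ E c', g (V c') y ∈ E c') → ∀ y ∈ F, g (V c) y ∈ F

/-- `P c` is the characteristic polynomial of the symmetry `g` on `E c`, and for all stable
subspaces `F` of `E c`, the characteristic polynomial `f` of `g` on `F` is prime to `P c / f`. (This
holds if `P c` has no multiple factors.) -/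
structure AreMultiplicityFree {n : ℕ} (V : Fin n → SmProjVar k) (E : Subspaces W V)
    (g : ∀ X : SmProjVar k, W.H X → W.H X) (P : Fin n → K[X]) : Prop where
  charpoly : ∀ c, IsCharpolyOn (g (V c)) (E c) (P c)
  coprime : ∀ c, ∀ F ≤ E c, IsStableSubspace W V E c F → ∀ f h : K[X],
    IsCharpolyOn (g (V c)) F f → P c = f * h → IsCoprime f h

/-- The group generated by the multiplier `χ` of the symmetry `g` and by the eigenvalues of `g` on
`H(X)`, in an algebraic closure of `K`. (If `X` is a point, this is the group of the powers of
`χ`.) -/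
noncomputable def symmetryGroup (X : SmProjVar k) (g : ∀ X : SmProjVar k, W.H X → W.H X) (χ : K) :
    Subgroup (AlgebraicClosure K)ˣ :=
  Subgroup.closure {a | (a : AlgebraicClosure K) = algebraMap K (AlgebraicClosure K) χ ∨
    ∃ l : W.H X →ₗ[K] AlgebraicClosure K, l ≠ 0 ∧
      ∀ x, l (g X x) = (a : AlgebraicClosure K) * l x}

/-- The monic polynomials `Q c` over `K` form a relation between the factors of the polynomials
`P c`: every irreducible factor of `Q c` divides `P c` (multiplicities do not matter), `Q c` is
prime to its dual, the roots of which are the `χ ^ dim (V c) / a`, for the roots `a` of `Q c`, and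
some positive power of the product of the constant terms `Q c (0)` is in the group generated by `χ`
and the eigenvalues of the symmetry `g` on `H(X)`. -/
structure IsFactorRelation (X : SmProjVar k) {n : ℕ} (V : Fin n → SmProjVar k)
    (g : ∀ X : SmProjVar k, W.H X → W.H X) (χ : K) (P Q : Fin n → K[X]) : Prop where
  monic : ∀ c, (Q c).Monic
  factors : ∀ c (p : K[X]), Irreducible p → p ∣ Q c → p ∣ P c
  coprime : ∀ c, IsCoprime (Q c) (dualPoly (χ ^ (V c).dim) (Q c))
  relation : ∃ m : ℕ, 0 < m ∧ ∃ a ∈ symmetryGroup W X g χ,
    (a : AlgebraicClosure K) = algebraMap K (AlgebraicClosure K) ((∏ c, (Q c).coeff 0) ^ m)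

end Pool.Agent.Helper11.Zt
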