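import Mathlib
import Pool.Agent.Helper11.Zt.Span2
import Pool.Agent.Helper11.Dr.Thm

/-!
# Letters in pieces of cohomology
-/

universe u v w t

open CategoryTheory TensorProduct

namespace Pool.Agent.Helper11.Zt

open Pool.Agent.Helper10 hiding IsAlgAut parityPart
open SmProjVar SPre Pool.Agent.Helper11.Iso Pool.Agent.Helper11.Obs

variable {k : Type u} [Field k] {K : Type v} [Field K] [CharZero K]
  (W : WeilCohomology.{u, v, w} k K)

/-- the pull-backs of the elements of the pieces -/
def pieceLetters {P : ℕ} {V : Fin P → SmProjVar k} (E : ∀ c, Submodule K (W.H (V c)))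
    (T : SmProjVar k) : Set ((W.toSPre K).H T) :=
  {y | ∃ (c : Fin P) (f : T.toOver ⟶ (V c).toOver) (v : W.H (V c)), v ∈ E c ∧
    y = Obs.one W K (W.pull f v)}

lemma one_eq_one (T : SmProjVar k) : Obs.one W K (1 : W.H T) = 1 := rfl

lemma piece_hom {V : SmProjVar k} {E : Submodule K (W.H V)} {p : ℕ}
    (hp : E ≤ Obs.parityPart W.toCohomologyData V p) {v : W.H V} (hv : v ∈ E) :
    (W.toSPre K).Hom V (Obs.one W K v) := by
  by_cases h : Even p
  · exact .inl (Obs.one_ev W K (Obs.parityPart_le_evK W h (hp hv)))
  · exact .inr (Obs.one_od W K (Obs.parityPart_le_odK W h (hp hv)))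

/-- the pull-backs of the elements of pieces are letters if numerically trivial classes are
orthogonal to all words -/
theorem isLettersFor {X : SmProjVar k} {P : ℕ} {V : Fin P → SmProjVar k}
    (E : ∀ c, Submodule K (W.H (V c)))
    (hE : ∀ c, ∃ p, E c ≤ Obs.parityPart W.toCohomologyData (V c) p)
    (h0 : ∀ n, NumTrivialOrthogonal W.toCohomologyData X V E n) :
    IsLettersFor (W.toSPre K) X (pieceLetters W E) where
  hom := by
    rintro T _ ⟨c, f, v, hv, rfl⟩
    obtain ⟨p, hp⟩ := hE c
    rw [← Obs.pull_one]
    exact Hom.pull _ f (piece_hom W hp hv)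
  pull := by
    rintro T Z g _ ⟨c, f, v, hv, rfl⟩
    refine ⟨c, g ≫ f, v, hv, ?_⟩
    rw [Obs.pull_one, W.pull_comp]
  zero := by
    intro A hA T y hy r hr
    have hhom : (W.toSPre K).Hom T y := by
      have hh : ∀ z ∈ pieceLetters W E T, (W.toSPre K).Hom T z := by
        rintro _ ⟨c, f, v, hv, rfl⟩
        obtain ⟨p, hp⟩ := hE c
        rw [← Obs.pull_one]
        exact Hom.pull _ f (piece_hom W hp hv)
      induction hy using Submonoid.closure_induction with
      | mem y hy => exact hh y hy
      | one => exact .inl ((W.toSPre K).alg_le_ev T ((W.toSPre K).one_mem T))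
      | mul x y _ _ hx hy => exact hx.mul _ hy
    obtain ⟨l, hl, rfl⟩ := Submonoid.exists_list_of_mem_closure hy
    have h1 : ∀ i : Fin l.length, ∃ (c : Fin P) (f : T.toOver ⟶ (V c).toOver) (v : W.H (V c)),
        v ∈ E c ∧ l.get i = Obs.one W K (W.pull f v) := fun i => hl _ (List.get_mem l i)
    choose c f v hv hlv using h1
    have h2 : l.prod = Obs.one W K (List.ofFn fun i => W.pull (f i) (v i)).prod := by
      have h3 : l = List.ofFn fun i => Obs.one W K (W.pull (f i) (v i)) :=
        (List.ofFn_get l).symm.trans (congrArg List.ofFn (funext hlv))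
      have h4 : ∀ (L : List (W.H T)), Obs.one W K L.prod = (L.map (Obs.one W K)).prod := by
        intro L
        induction L with
        | nil => rfl
        | cons a L ih => rw [List.prod_cons, Obs.one_mul, ih, List.map_cons, List.prod_cons]
      rw [h4, List.map_ofFn]
      exact congrArg List.prod h3
    obtain ⟨r, rfl⟩ := Can.eq_one W _ r
    have hr' := (Can.isNumTrivial_iff W).mpr hr
    refine eq_of_tr fun x => ?_
    rw [zero_mul, map_zero, contr_apply, tr_pushF, mul_assoc]
    -- words on `A × T`
    have key : ∀ x : (W.toSPre K).H A, (W.toSPre K).Hom A x →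
        (W.toSPre K).tr _ (Obs.one W K r * ((W.toSPre K).pull (snd A T) l.prod *
          (W.toSPre K).pull (fst A T) x)) = 0 := by
      intro x hx
      have h5 : (W.toSPre K).tr _ (Obs.one W K r * ((W.toSPre K).pull (fst A T) x *
          (W.toSPre K).pull (snd A T) l.prod)) = 0 := by
        obtain ⟨x, rfl⟩ := Can.eq_one W _ x
        obtain ⟨m, q, x', hx'⟩ := Can.wordClass_retract W hA (fst A T)
          (fun i => snd A T ≫ f i) x
        have h6 := h0 l.length (A.prod T) r (wordClass W.toCohomologyData (fst A T)
          (fun i => snd A T ≫ f i) x v) hr'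
          ⟨m, l.length, q, x', c, fun i => snd A T ≫ f i, fun _ => 0, v, le_rfl,
            fun i => hv i, Finset.sum_const_zero, hx' v⟩
        have h7 : (W.toSPre K).pull (fst A T) (Obs.one W K x) *
            (W.toSPre K).pull (snd A T) l.prod = Obs.one W K (wordClass W.toCohomologyData
              (fst A T) (fun i => snd A T ≫ f i) x v) := by
          have h8 : W.pull (snd A T) (List.ofFn fun i => W.pull (f i) (v i)).prod =
              (List.ofFn fun i => W.pull (snd A T ≫ f i) (v i)).prod := by
            have h9 := map_list_prod (W.pullA (snd A T)) (List.ofFn fun i => W.pull (f i) (v i))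
            rw [List.map_ofFn] at h9
            refine h9.trans (congrArg List.prod (congrArg List.ofFn (funext fun i => ?_)))
            exact (W.pull_comp _ _ _).symm
          rw [h2, Obs.pull_one, Obs.pull_one, ← Obs.one_mul, h8]
          rfl
        rw [h7, Obs.tr_one_mul, h6, map_zero]
      rcases (W.toSPre K).comm_or _ _ _ (Hom.pull _ (snd A T) hhom) (Hom.pull _ (fst A T) hx) with
        h | h
      · rw [h, h5]
      · rw [h, mul_neg, map_neg, h5, neg_zero]
    obtain ⟨a, ha, b, hb, rfl⟩ := (W.toSPre K).exists_decomp A x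
    rw [map_add ((W.toSPre K).pull _), mul_add, mul_add, map_add, key a (.inl ha),
      key b (.inr hb), add_zero]

end Pool.Agent.Helper11.Zt
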