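import Mathlib
import Pool.Agent.Helper11.Zt.Trans
import Pool.Agent.Helper11.Zt.St.Z2
import Pool.Agent.Helper11.Zt.St.Z3
import Pool.Agent.Helper11.Zt.St.Z4
import Pool.Agent.Helper11.Dr.Types

/-!
# Related flags and the factors of the characteristic polynomial of Frobenius
-/

universe u v w t

open CategoryTheory TensorProduct Finset Polynomial

namespace Pool.Agent.Helper11.Zt

/-! ### dual polynomials -/

section dual

variable {K : Type*} [Field K] {t : K}

lemma dual_mul (f g : K[X]) : dualPoly t (f * g) = dualPoly t f * dualPoly t g := by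
  unfold dualPoly
  rw [reverse_mul_of_domain, mul_scaleRoots_of_noZeroDivisors]

lemma natDegree_reverse' {p : K[X]} (hp : p.coeff 0 ≠ 0) : p.reverse.natDegree = p.natDegree := by
  rw [reverse_natDegree, natTrailingDegree_eq_zero.mpr (Or.inr hp), Nat.sub_zero]

lemma dual_dual (ht : t ≠ 0) {p : K[X]} (hp : p.coeff 0 ≠ 0) :
    dualPoly t (dualPoly t p) = C (t ^ p.natDegree) * p := by
  have hp' : p ≠ 0 := fun h => hp (by rw [h, coeff_zero])
  have hd : (p.reverse.scaleRoots t).natDegree = p.natDegree := by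
    rw [natDegree_scaleRoots, natDegree_reverse' hp]
  have h0 : (p.reverse.scaleRoots t).coeff 0 ≠ 0 := by
    rw [coeff_scaleRoots, coeff_zero_reverse, Nat.sub_zero, natDegree_reverse' hp]
    exact mul_ne_zero (leadingCoeff_ne_zero.mpr hp') (pow_ne_zero _ ht)
  ext i
  unfold dualPoly
  rw [coeff_scaleRoots, natDegree_reverse' h0, coeff_reverse, hd, coeff_C_mul, coeff_scaleRoots,
    coeff_reverse, natDegree_reverse' hp]
  by_cases hi : i ≤ p.natDegree
  · rw [revAt_le hi, revAt_le (Nat.sub_le _ _), Nat.sub_sub_self hi, mul_assoc, ← pow_add,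
      Nat.add_sub_cancel' hi, mul_comm]
  · have hi' := not_le.mp hi
    rw [revAt_eq_self_of_lt hi', revAt_eq_self_of_lt hi', coeff_eq_zero_of_natDegree_lt hi']
    ring

lemma dvd_dual (ht : t ≠ 0) {p f : K[X]} (hp : p.coeff 0 ≠ 0) (h : dualPoly t p ∣ f) :
    p ∣ dualPoly t f := by
  obtain ⟨u, rfl⟩ := h
  rw [dual_mul, dual_dual ht hp]
  exact (Dvd.intro_left _ rfl).mul_right _

lemma dual_dvd_dual {f g : K[X]} (h : f ∣ g) : dualPoly t f ∣ dualPoly t g := by
  obtain ⟨u, rfl⟩ := h
  rw [dual_mul]
  exact Dvd.intro _ rfl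

lemma dual_one : dualPoly t (1 : K[X]) = 1 := by
  unfold dualPoly
  rw [← C_1, reverse_C, scaleRoots_C]

lemma dual_prod {ι : Type*} (s : Finset ι) (f : ι → K[X]) :
    dualPoly t (∏ i ∈ s, f i) = ∏ i ∈ s, dualPoly t (f i) := by
  classical
  induction s using Finset.induction_on with
  | empty => rw [prod_empty, prod_empty, dual_one]
  | insert a s ha ih => rw [prod_insert ha, prod_insert ha, dual_mul, ih]

end dual

/-! ### determinants -/

section det

variable {K : Type*} [Field K] {M : Type*} [AddCommGroup M] [Module K M] [FiniteDimensional K M]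

lemma det_restrict_sq (g : Module.End K M) (T : Submodule K M) (hT : ∀ x ∈ T, g x ∈ T) :
    LinearMap.det (g.restrict hT) ^ 2 = (g.restrict hT).charpoly.coeff 0 ^ 2 := by
  let b := Module.finBasis K T
  obtain ⟨h1, h2, h3⟩ := charpoly_eq_of_basis g T hT b (LinearMap.toMatrix b b (g.restrict hT))
    (fun j => by
      have h4 := congrArg (Submodule.subtype T) (b.sum_repr (g.restrict hT (b j))).symm
      rw [map_sum] at h4
      refine h4.trans (sum_congr rfl fun i _ => ?_)
      rw [map_smul, LinearMap.toMatrix_apply]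
      rfl)
  rw [← h2, h3, ← h1, mul_pow, ← pow_mul, mul_comm _ 2, pow_mul, neg_one_sq, one_pow, one_mul]

lemma det_restrict_ne_zero (g : Module.End K M) (hg : Function.Injective g) (T : Submodule K M)
    (hT : ∀ x ∈ T, g x ∈ T) : LinearMap.det (g.restrict hT) ≠ 0 := by
  intro h
  have h1 := LinearMap.bot_lt_ker_of_det_eq_zero h
  refine h1.ne' ?_
  rw [LinearMap.ker_eq_bot]
  intro x y hxy
  exact Subtype.ext (hg (congrArg Subtype.val hxy))

lemma charpoly_submoduleOf (g : Module.End K M) {F T : Submodule K M} (hF : ∀ x ∈ F, g x ∈ F)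
    (hT : ∀ x ∈ T, g x ∈ T) (h : F ≤ T) (hF' : ∀ x ∈ F.submoduleOf T, g.restrict hT x ∈
      F.submoduleOf T) : ((g.restrict hT).restrict hF').charpoly = (g.restrict hF).charpoly := by
  rw [← LinearEquiv.charpoly_conj (Submodule.submoduleOfEquivOfLe h)]
  congr 1

end det

/-! ### flags -/

section flags

open Pool.Agent.Helper10 hiding IsAlgAut parityPart
open SmProjVar Pool.Agent.Helper11.Obs

variable {k : Type u} [Field k] [Finite k] {K : Type v} [Field K] [CharZero K]
  (W : WeilCohomology.{u, v, w} k K)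

lemma fr_injective (V : SmProjVar k) : Function.Injective (fr W V) := pull_frob_injective W V

/-- the determinant of Frobenius with coefficients in an algebraic closure -/
lemma isDetOn_fr {V : SmProjVar k} {F : Submodule K (W.H V)} (hF : ∀ x ∈ F, fr W V x ∈ F) :
    IsDetOn (AlgebraicClosure K) (W.pullΩ (AlgebraicClosure K) (frob V)) F
      (algebraMap K (AlgebraicClosure K) (LinearMap.det ((fr W V).restrict hF))) := by
  let b := Module.finBasis K F
  refine ⟨Module.finrank K F, b, (LinearMap.toMatrix b b ((fr W V).restrict hF)).map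
    (algebraMap K (AlgebraicClosure K)), fun j => ?_, ?_⟩
  · have h4 := congrArg (Submodule.subtype F) (b.sum_repr ((fr W V).restrict hF (b j))).symm
    rw [map_sum] at h4
    have h5 : W.pullA (frob V) (b j : W.H V) =
        ∑ i, (LinearMap.toMatrix b b ((fr W V).restrict hF)) i j • (b i : W.H V) := by
      refine h4.trans (sum_congr rfl fun i _ => ?_)
      rw [map_smul, LinearMap.toMatrix_apply]
      rfl
    rw [WeilCohomology.pullΩ_tmul, h5, TensorProduct.tmul_sum]
    refine sum_congr rfl fun i _ => ?_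
    rw [TensorProduct.tmul_smul, Matrix.map_apply, algebraMap_smul]
  · rw [← RingHom.mapMatrix_apply, ← RingHom.map_det, LinearMap.det_toMatrix]

/-- the eigenvalue group of Frobenius -/
lemma eigenvalueGroup_le (X : SmProjVar k) :
    eigenvalueGroup W.toCohomologyData X (AlgebraicClosure K)
      (fun X => W.pullΩ (AlgebraicClosure K) (frob X)) (Nat.card k : AlgebraicClosure K) ≤
        frobeniusGroup W.toCohomologyData X := by
  unfold eigenvalueGroup frobeniusGroup
  refine Subgroup.closure_mono ?_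
  rintro a (ha | ⟨y, hy, hay⟩)
  · exact .inl ha
  · refine .inr (exists_eigenform (fr W X) (a : AlgebraicClosure K) y hy ?_)
    rw [← hay]
    refine baseChange_induction_top (p := fun y => (fr W X).baseChange (AlgebraicClosure K) y =
      W.pullΩ (AlgebraicClosure K) (frob X) y) (fun x => ?_) ?_ (fun a b ha hb => ?_)
      (fun a b hb => ?_) y
    · rw [LinearMap.baseChange_tmul, WeilCohomology.pullΩ_tmul]
      rfl
    · rw [map_zero, map_zero]
    · rw [map_add, map_add, ha, hb]
    · rw [map_smul, map_smul, hb]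

variable {W} {X V : SmProjVar k} {E : Submodule K (W.H V)}
  {u : W.H V → W.H V} (hu : W.IsAlgebraicMap V V u)
  (huE : ∀ y, u y ∈ E ∧ ∀ x ∈ E, W.pairing V x (u y) = W.pairing V x y)
  (hfr : ∀ y ∈ E, fr W V y ∈ E)

include hu huE hfr in
/-- the characteristic polynomial of Frobenius on an isotropic subspace of a part -/
lemma charpoly_isotropic (c : Fin 2) {F : Submodule K (W.H V)}
    (hF : ∀ x ∈ F, fr W V x ∈ F) (hle : F ≤ part E c)
    (hiso : IsTotallyIsotropic W.toCohomologyData V F) :
    ((fr W V).restrict hF).charpoly *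
      dualPoly ((Nat.card k : K) ^ V.dim) ((fr W V).restrict hF).charpoly ∣
        ((fr W V).restrict fun _ h => fr_mem_part hfr c h).charpoly := by
  have hT' : ∀ x ∈ part E c, fr W V x ∈ part E c := fun _ h => fr_mem_part hfr c h
  have hF' : ∀ x ∈ F.submoduleOf (part E c), (fr W V).restrict hT' x ∈
      F.submoduleOf (part E c) := fun x hx => hF _ hx
  let B : part E c →ₗ[K] part E c →ₗ[K] K :=
    LinearMap.mk₂ K (fun x y => W.trL V (x * y))
      (fun a b c => by rw [Submodule.coe_add, add_mul, map_add])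
      (fun a b c => by rw [Submodule.coe_smul, smul_mul_assoc, map_smul])
      (fun a b c => by rw [Submodule.coe_add, mul_add, map_add])
      (fun a b c => by rw [Submodule.coe_smul, mul_smul_comm, map_smul])
  have hB : ∀ x y, B x y = W.pairing V x y := fun _ _ => rfl
  have h1 := charpoly_mul_dual_dvd B (fun y hy => Subtype.ext (part_nondegenerate hu huE c y.2
      fun x hx => hy ⟨x, hx⟩)) ((fr W V).restrict hT')
    (pow_ne_zero V.dim (card_ne_zero' (k := k) (K := K)))
    (fun x y => by rw [hB, hB]; exact fr_pairing W _ _)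
    (F.submoduleOf (part E c)) hF' (fun x hx y hy => hiso _ hx _ hy)
  rw [charpoly_submoduleOf (fr W V) hF hT' hle hF'] at h1
  exact h1

include hu huE hfr in
/-- **There are no related flags in a Frobenius piece.** -/
theorem flags_eq_bot {P : K[X]} (hP : IsMultiplicityFree W.toCohomologyData V E P) {s : ℕ}
    (h : Fin s → K[X]) (hrep : RepresentFactors ((Nat.card k : K) ^ V.dim) P h)
    (hind : IndependentModulo (frobeniusGroup W.toCohomologyData X) h)
    (F : ∀ _ : Fin 2, ℕ → Submodule K (W.H V))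
    (hF : AreRelatedFlags.{u, v, w, v} W.toCohomologyData X (fun _ => V) (part E) F) :
    ∀ c i, F c i = ⊥ := by
  classical
  set t : K := (Nat.card k : K) ^ V.dim with ht
  have ht0 : t ≠ 0 := pow_ne_zero _ card_ne_zero'
  have hstc : ∀ c i, ∀ v : W.H V → W.H V, W.IsAlgebraicMap V V v → (∀ y ∈ E, v y ∈ E) →
      ∀ x ∈ F c i, v x ∈ F c i := fun c i v hv hvE x hx =>
    hF.correspondences c c v hv (fun y hy => map_part hv hvE c hy) i x hx
  have hst : ∀ c i, ∀ x ∈ F c i, fr W V x ∈ F c i := fun c i =>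
    hstc c i (fr W V) (fr_isAlgebraicMap W V) hfr
  set R : Fin 2 → K[X] := fun c => ((fr W V).restrict fun _ h => fr_mem_part hfr c h).charpoly
    with hR
  have hPR : P = R 0 * R 1 := charpoly_parts hu huE hfr hP.charpoly
  have hcop : IsCoprime (R 0) (R 1) := coprime_parts hu huE hfr hP
  set f : Fin 2 → ℕ → K[X] := fun c i => ((fr W V).restrict (hst c i)).charpoly with hf
  have hmonic : ∀ c i, (f c i).Monic := fun c i => LinearMap.charpoly_monic _
  have hdvd : ∀ c i, f c i ∣ f c 0 := fun c i =>
    charpoly_restrict_dvd (fr W V) (F c 0) (F c i) (hst c 0) (hst c i) (hF.antitone c (Nat.zero_le i))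
  have hfR : ∀ c, f c 0 * dualPoly t (f c 0) ∣ R c := fun c =>
    charpoly_isotropic hu huE hfr c (hst c 0) (hF.le c 0) (hF.isotropic c 0)
  have hRP : ∀ c, R c ∣ P := by
    intro c
    rw [hPR]
    match c with
    | 0 => exact Dvd.intro _ rfl
    | 1 => exact Dvd.intro_left _ rfl
  -- `f c 0` is prime to its dual
  have hfcop : ∀ c, IsCoprime (f c 0) (dualPoly t (f c 0)) := by
    intro c
    obtain ⟨g, hg⟩ := (hfR c).trans (hRP c)
    rw [mul_assoc] at hg
    have h1 := hP.coprime (F c 0) ((hF.le c 0).trans (part_le c)) (fun v hv hvE y hy =>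
      hstc c 0 v hv hvE y hy) _ _ (isCharpolyOn_charpoly (hst c 0)) hg
    exact h1.of_mul_right_left
  have hP0 : P.coeff 0 ≠ 0 := by
    have h1 := det_restrict_sq (fr W V) E hfr
    have h2 := det_restrict_ne_zero (fr W V) (fr_injective W V) E hfr
    rw [← charpoly_of_isCharpolyOn hfr hP.charpoly] at h1
    intro h3
    rw [h3, zero_pow two_ne_zero] at h1
    exact h2 (pow_eq_zero_iff two_ne_zero |>.mp h1)
  obtain ⟨N, hN⟩ := hF.eventually_zero
  set Q : K[X] := ∏ c, ∏ i : Fin N, f c i with hQ
  have hQm : Q.Monic := monic_prod_of_monic _ _ fun c _ => monic_prod_of_monic _ _ fun i _ =>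
    hmonic c i
  -- the group
  set A : Subgroup Kˣ := (frobeniusGroup W.toCohomologyData X).comap
    (Units.map (algebraMap K (AlgebraicClosure K)).toMonoidHom) with hA
  have hAmem : ∀ u : Kˣ, u ∈ A ↔ Units.map (algebraMap K (AlgebraicClosure K)).toMonoidHom u ∈
    frobeniusGroup W.toCohomologyData X := fun u => Subgroup.mem_comap
  have hqA : ∃ u ∈ A, (u : K) = t := by
    refine ⟨Units.mk0 (Nat.card k : K) card_ne_zero' ^ V.dim, Subgroup.pow_mem _ ?_ _, ?_⟩
    · rw [hAmem]
      exact Subgroup.subset_closure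
        (.inl (map_natCast (algebraMap K (AlgebraicClosure K)) (Nat.card k)))
    · rw [Units.val_pow_eq_pow_val, Units.val_mk0]
  have hind' : ∀ n : Fin s → ℤ, (∃ u ∈ A, (u : K) = ∏ j, (h j).coeff 0 ^ n j) → n = 0 := by
    rintro n ⟨u, hu, hun⟩
    exact hind n ⟨_, (hAmem u).mp hu, by rw [← hun]; rfl⟩
  -- the relation
  obtain ⟨m, hm, hrel⟩ := hF.relation (AlgebraicClosure K)
    (fun X => W.pullΩ (AlgebraicClosure K) (frob X)) (Nat.card k : AlgebraicClosure K)
    (isSymmetry_frob W (AlgebraicClosure K))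
    (fun c y hy => by
      rw [WeilCohomology.pullΩ_tmul]
      exact Submodule.tmul_mem_baseChange_of_mem 1 (fr_mem_part hfr c hy))
    N (fun c i => Units.mk0 (algebraMap K (AlgebraicClosure K)
      (LinearMap.det ((fr W V).restrict (hst c i))))
      (fun h0 => det_restrict_ne_zero (fr W V) (fr_injective W V) (F c i) (hst c i)
        ((algebraMap K (AlgebraicClosure K)).injective (by rw [h0, map_zero]))))
    hN (fun c i => isDetOn_fr W (hst c i))
  have hrel' : ∃ u ∈ A, (u : K) = Q.coeff 0 ^ (2 * m) := by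
    refine ⟨(∏ c, ∏ i : Fin N, Units.mk0 (LinearMap.det ((fr W V).restrict (hst c i)))
      (det_restrict_ne_zero (fr W V) (fr_injective W V) (F c i) (hst c i))) ^ (m * 2), ?_, ?_⟩
    · rw [pow_mul]
      refine Subgroup.pow_mem _ ?_ _
      rw [hAmem]
      have h1 := eigenvalueGroup_le W X hrel
      convert h1 using 1
      rw [map_pow, map_prod]
      congr 1
      refine prod_congr rfl fun c _ => ?_
      rw [map_prod]
      refine prod_congr rfl fun i _ => ?_
      ext
      rfl
    · rw [Units.val_pow_eq_pow_val, Units.coe_prod, mul_comm, pow_mul, pow_mul]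
      congr 1
      rw [hQ, coeff_zero_prod, ← prod_pow, ← prod_pow]
      refine prod_congr rfl fun c _ => ?_
      rw [Units.coe_prod, coeff_zero_prod, ← prod_pow, ← prod_pow]
      refine prod_congr rfl fun i _ => ?_
      rw [Units.val_mk0]
      exact det_restrict_sq (fr W V) (F c i) (hst c i)
  -- the factors of `Q`
  have hQ1 : Q = 1 := by
    refine eq_one_of_relation t ht0 A hqA P hP0 h hrep.monic hrep.dvd hrep.rep hind' Q hQm
      (fun p hpm hpi hpQ => ?_) (mul_pos two_pos hm) hrel'
    have hpp : Prime p := hpi.prime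
    obtain ⟨c, -, hc⟩ := (hpp.dvd_finsetProd_iff _).mp hpQ
    obtain ⟨i, -, hci⟩ := (hpp.dvd_finsetProd_iff _).mp hc
    have h1 : p ∣ f c 0 := hci.trans (hdvd c i)
    have h2 : p ∣ R c := (h1.mul_right _).trans (hfR c)
    refine ⟨h2.trans (hRP c), fun hd => ?_⟩
    have hp0 : p.coeff 0 ≠ 0 := by
      obtain ⟨g, hg⟩ := h2.trans (hRP c)
      intro h3
      rw [hg, mul_coeff_zero, h3, zero_mul] at hP0
      exact hP0 rfl
    have h3 : p ∣ dualPoly t Q := dvd_dual ht0 hp0 hd
    rw [hQ, dual_prod] at h3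
    obtain ⟨c', -, hc'⟩ := (hpp.dvd_finsetProd_iff _).mp h3
    rw [dual_prod] at hc'
    obtain ⟨i', -, hci'⟩ := (hpp.dvd_finsetProd_iff _).mp hc'
    have h4 : p ∣ dualPoly t (f c' 0) := hci'.trans (dual_dvd_dual (hdvd c' i'))
    refine hpi.not_isUnit ?_
    by_cases hcc : c' = c
    · subst hcc
      exact (hfcop c').isUnit_of_dvd' h1 h4
    · have h6 : p ∣ R c' := (h4.mul_left _).trans (hfR c')
      match c, c' with
      | 0, 0 => exact absurd rfl hcc
      | 1, 1 => exact absurd rfl hcc
      | 0, 1 => exact hcop.isUnit_of_dvd' h2 h6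
      | 1, 0 => exact hcop.isUnit_of_dvd' h6 h2
  -- conclusion
  intro c i
  by_cases hi : i < N
  · have h1 : f c i ∣ 1 := by
      rw [← hQ1, hQ]
      refine (dvd_prod_of_mem (fun i : Fin N => f c i) (mem_univ (⟨i, hi⟩ : Fin N))).trans ?_
      exact dvd_prod_of_mem (fun c => ∏ i : Fin N, f c i) (mem_univ c)
    have h2 : f c i = 1 := (hmonic c i).eq_one_of_isUnit (isUnit_of_dvd_one h1)
    have h3 : Module.finrank K (F c i) = 0 := by
      rw [← LinearMap.charpoly_natDegree ((fr W V).restrict (hst c i))]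
      change (f c i).natDegree = 0
      rw [h2, natDegree_one]
    exact Submodule.finrank_eq_zero.mp h3
  · rw [eq_bot_iff, ← hN c]
    exact hF.antitone c (not_lt.mp hi)

end flags

end Pool.Agent.Helper11.Zt
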