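import Mathlib
import Pool.Agent.Helper11.Zt.NoFlags
import Pool.Agent.Helper11.Zt.Letters

/-!
# The standard conjecture D and the zeta function
-/

universe u v w t

open CategoryTheory TensorProduct Finset Polynomial

namespace Pool.Agent.Helper11.Zt

open Pool.Agent.Helper10 hiding IsAlgAut parityPart
open SmProjVar SPre Pool.Agent.Helper11.Iso Pool.Agent.Helper11.Obs

section

variable {k : Type u} [Field k] {K : Type t} [Field K] {Ω : Type v} [Field Ω] [Algebra K Ω]
  {P : SPre.{u, v, w, t} k K Ω} {L : ∀ T : SmProjVar k, Set (P.H T)} {X V : SmProjVar k}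

/-- classes of algebraic cycles are generated -/
lemma alg_mem_rgen (hX : ∃ x : P.H X, P.Hom X x ∧ P.tr X x = 1) {a : P.H V} (ha : a ∈ P.alg V) :
    a ∈ rgen P L X V := by
  obtain ⟨x, hx, hx1⟩ := hX
  refine ⟨X, X.prod V, fst X V, snd X V, P.pull (snd X V) a, 1, x, PowLike.refl X,
    P.pull_mem _ _ ha, Submonoid.one_mem _, hx, ?_⟩
  have h1 := pushF_snd_ext x (1 : P.H V)
  rw [SPre.ext, map_one, mul_one, hx1, one_smul] at h1
  rw [mul_one, pushF_pull_mul, h1, mul_one]

/-- letters are generated -/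
lemma letter_mem_rgen2 (hL : IsLettersFor P X L) (hX : ∃ x : P.H X, P.Hom X x ∧ P.tr X x = 1)
    {y : P.H V} (hy : y ∈ L V) : y ∈ rgen P L X V := by
  obtain ⟨x, hx, hx1⟩ := hX
  refine ⟨X, X.prod V, fst X V, snd X V, 1, P.pull (snd X V) y, x, PowLike.refl X,
    P.one_mem _, Submonoid.subset_closure (hL.pull _ y hy), hx, ?_⟩
  have h1 := pushF_snd_ext x (1 : P.H V)
  rw [SPre.ext, map_one, mul_one, hx1, one_smul] at h1
  rw [_root_.one_mul, pushF_pull_mul, h1, mul_one]

end

variable {k : Type u} [Field k] {K : Type v} [Field K] [CharZero K]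
  (W : WeilCohomology.{u, v, w} k K)

/-- numerically trivial classes are orthogonal to the words in pieces without related flags -/
theorem numTrivialOrthogonal_of_no_flags {X : SmProjVar k} (hX : ∀ n, W.StandardD (power X n))
    {P : ℕ} (V : Fin P → SmProjVar k) (E : ∀ c, Submodule K (W.H (V c)))
    (hE : ∀ c, IsPiece W.toCohomologyData (V c) (E c))
    (h0 : ∀ F : ∀ c : Fin P, ℕ → Submodule K (W.H (V c)),
      AreRelatedFlags.{u, v, w, t} W.toCohomologyData X V E F → ∀ c i, F c i = ⊥) (n : ℕ) :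
    NumTrivialOrthogonal W.toCohomologyData X V E n := by
  obtain ⟨F, hF, -, D, hD⟩ := Dr.exists_related.{u, v, w, t} W hX V E hE (n := n + 2) (by omega)
  have hD' : (0 : ℝ) < D := by exact_mod_cast hD.pos
  have h1 := h0 _ hD.related
  have h2 : IsTrivial W.toCohomologyData F := by
    intro c a ha
    rw [hD.jumps]
    have h3 : (0 : ℝ) < D * a := mul_pos hD' ha
    have h4 : 0 < ⌈(D : ℝ) * a⌉ := Int.ceil_pos.mpr h3
    obtain ⟨i, hi⟩ : ∃ i : ℕ, ⌈(D : ℝ) * a⌉ = ((i + 1 : ℕ) : ℤ) := by
      refine ⟨(⌈(D : ℝ) * a⌉ - 1).toNat, ?_⟩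
      push_cast
      omega
    have h5 : ((⌈(D : ℝ) * a⌉ : ℤ) : ℝ) = ((i + 1 : ℕ) : ℝ) := by
      rw [hi]
      norm_cast
    rw [h5]
    exact h1 c i
  have h3 := Can.numTrivialOrthogonal_of_trivial W hF.admissible h2
  rintro T z y hz ⟨m, b, p, x, c, f, a, v, hb, hv, ha, rfl⟩
  exact h3 T z _ hz ⟨m, b, p, x, c, f, a, v, hb.trans (by omega), hv, ha, rfl⟩

/-- classes of algebraic cycles are images of classes on any variety -/
lemma alg_le_imageOfPowers (X : SmProjVar k) {V : SmProjVar k} {a : W.H V}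
    (ha : a ∈ W.algClasses V) : a ∈ imageOfPowers W.toCohomologyData X V := by
  obtain ⟨x, ⟨-, hx⟩, -⟩ := (W.trace X).bijective 1
  have h1 : (1 : W.H X) ∈ W.algClasses X := by
    obtain ⟨y, -, hy⟩ := W.cycleClasses.cy_fundamental X
    exact Submodule.subset_span ⟨0, y, hy.symm⟩
  have key : W.IsAlgebraicMap X V fun x => W.tr X x • a := by
    refine (isAlgebraicMap_iff W).mpr ⟨(W.toSPre K).ext X V (Obs.one W K 1) (Obs.one W K a),
      (W.toSPre K).mul_mem _ _ _ ((W.toSPre K).pull_mem _ _ (Obs.one_mem_alg W K h1))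
        ((W.toSPre K).pull_mem _ _ (Obs.one_mem_alg W K ha)), fun z => ?_⟩
    rw [op_ext, Obs.tr_one_mul, Can.one_smul' W K, pairing_trL, mul_one]
    rfl
  refine Submodule.subset_span ⟨0, fun x => W.tr X x • a, x, key, ?_⟩
  change a = W.tr X x • a
  rw [hx, one_smul]

variable [Finite k]

/-- the classes which are orthogonal to the algebraic classes form a Frobenius piece if the
standard conjecture D holds -/
theorem isFrobeniusPiece_of_standardD (X : SmProjVar k) {V : SmProjVar k} (hV : W.StandardD V)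
    {T : Submodule K (W.H V)} (hT : ∀ y, y ∈ T ↔ ∀ z ∈ W.algClasses V, W.pairing V z y = 0) :
    IsFrobeniusPiece W.toCohomologyData X V T := by
  obtain ⟨u, hu, -, hu1, hu2, hu3⟩ := exists_projector_alg W hV hT
  refine ⟨fun y hy => ?_, ⟨u, hu, fun y => ⟨hu2 y, fun x hx => ?_⟩⟩, ?_⟩
  · rw [hT]
    intro z hz
    unfold CohomologyData.algClasses at hz
    induction hz using Submodule.span_induction with
    | mem z hz =>
      obtain ⟨j, c, rfl⟩ := hz
      have h1 := tr_cy_frob W V j c y
      have h2 : W.trL V (W.cy V j c * y) = 0 :=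
        (hT y).mp hy _ (W.cy_mem_algClasses V j c)
      rw [h2, mul_zero] at h1
      exact (mul_eq_zero.mp h1.symm).resolve_left (pow_ne_zero _ card_ne_zero')
    | zero => rw [pairing_trL, zero_mul, map_zero]
    | add x y _ _ hx hy => rw [pairing_trL, add_mul, map_add, ← pairing_trL, ← pairing_trL, hx,
        hy, add_zero]
    | smul c x _ hx => rw [pairing_trL, smul_mul_assoc, map_smul, ← pairing_trL, hx, smul_zero]
  · have h1 : W.pairing V x (y - u y) = 0 := by
      rw [pairing_trL, ← W.evK_comm V _ x (W.algClasses_le_evK V (hu3 y))]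
      exact (hT x).mp hx _ (hu3 y)
    rw [pairing_trL, mul_sub, map_sub, sub_eq_zero] at h1
    exact h1.symm
  · rw [eq_top_iff]
    intro y _
    have h1 : y = (y - u y) + u y := by abel
    rw [h1]
    exact Submodule.add_mem_sup (alg_le_imageOfPowers W X (hu3 y)) (hu2 y)

/-- **The standard conjecture D and the factors of the characteristic polynomial of Frobenius.** -/
theorem standardD_of_factors {X : SmProjVar k} (hX : ∀ n, W.StandardD (power X n))
    {V : SmProjVar k} {E : Submodule K (W.H V)} (hE : IsFrobeniusPiece W.toCohomologyData X V E)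
    {P : K[X]} (hP : IsMultiplicityFree W.toCohomologyData V E P) {s : ℕ} (h : Fin s → K[X])
    (hrep : RepresentFactors ((Nat.card k : K) ^ V.dim) P h)
    (hind : IndependentModulo (frobeniusGroup W.toCohomologyData X) h) {Y : SmProjVar k}
    (hY : imageOfPowers W.toCohomologyData (X.prod V) Y = ⊤) (n : ℕ) :
    W.StandardD (power Y n) := by
  obtain ⟨u, hu, huE⟩ := hE.projector
  have hfr : ∀ y ∈ E, fr W V y ∈ E := hE.frobenius
  have h0 : ∀ n, NumTrivialOrthogonal W.toCohomologyData X (fun _ : Fin 2 => V) (part E) n :=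
    numTrivialOrthogonal_of_no_flags.{u, v, w, v} W hX _ _ (isPiece_part hu huE hfr hP)
      (flags_eq_bot hu huE hfr hP h hrep hind)
  have hL : IsLettersFor (W.toSPre K) X (pieceLetters W (V := fun _ : Fin 2 => V) (part E)) :=
    isLettersFor W _ (fun c => ⟨c, inf_le_right⟩) h0
  set S := Submodule.span K (rgen (W.toSPre K)
      (pieceLetters W (V := fun _ : Fin 2 => V) (part E)) X V) with hS
  have hspan : S = ⊤ := by
    rw [eq_top_iff]
    intro y _
    obtain ⟨y, rfl⟩ := Can.eq_one W V y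
    have hy : y ∈ imageOfPowers W.toCohomologyData X V ⊔ E := by rw [hE.sup]; trivial
    obtain ⟨a, ha, b, hb, rfl⟩ := Submodule.mem_sup.mp hy
    obtain ⟨z, rfl⟩ := exists_part_sum hu huE hb
    rw [Obs.one_add, Can.one_sum]
    refine Submodule.add_mem _ ?_ (Submodule.sum_mem _ fun c _ => Submodule.subset_span
      (letter_mem_rgen2 hL (Obs.exists_tr_one W K X) ⟨c, 𝟙 _, z c, (z c).2, ?_⟩))
    · exact image_induction (p := fun y => y ∈ S)
        (fun i κ hκ x => op_mem_rgen (Obs.powLike_power X i) hκ x) (Submodule.zero_mem _)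
        (fun _ _ => Submodule.add_mem _) (fun _ _ => Submodule.smul_mem _ _)
        (Obs.one_mem_image W K ha)
    · rw [W.pull_id]
  have hDP : (W.toSPre K).DP (X.prod V) := DP_of_span2 hL hspan
  have hDY : (W.toSPre K).DP Y := Obs.dp_of_imageOfPowers W K hDP hY
  rw [power_eq]
  exact W.standardD_of_D K _ (hDY n)

end Pool.Agent.Helper11.Zt
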