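import Mathlib
import Pool.Agent.Helper11.Zt.Thm
import Pool.Agent.Helper11.Zt.STypes

/-!
# Pieces of cohomology without relations between the factors of a symmetry
-/

universe u v w t

open CategoryTheory TensorProduct Finset Polynomial

namespace Pool.Agent.Helper11.Zt

open Pool.Agent.Helper10 hiding IsAlgAut parityPart
open SmProjVar Pool.Agent.Helper11.Obs

section symmetry

variable {k : Type u} [Field k] {K : Type v} [Field K] [CharZero K]
  {W : WeilCohomology.{u, v, w} k K} {g : ∀ X : SmProjVar k, W.H X → W.H X} {χ : K}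

/-- a symmetry as an automorphism of algebras -/
noncomputable def IsSymmetryOver.equiv (hg : IsSymmetryOver W.toCohomologyData g χ)
    (X : SmProjVar k) : W.H X ≃ₐ[K] W.H X :=
  AlgEquiv.ofBijective
    { toFun := g X
      map_one' := hg.map_one X
      map_mul' := hg.map_mul X
      map_zero' := by
        have h1 := hg.map_smul X 0 0
        rwa [zero_smul, zero_smul] at h1
      map_add' := hg.map_add X
      commutes' := fun a => by
        rw [Algebra.algebraMap_eq_smul_one, hg.map_smul, hg.map_one] }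
    (hg.bijective X)

lemma IsSymmetryOver.equiv_apply (hg : IsSymmetryOver W.toCohomologyData g χ) {X : SmProjVar k}
    (x : W.H X) : hg.equiv X x = g X x := rfl

/-- a symmetry as a linear map -/
noncomputable def IsSymmetryOver.lin (hg : IsSymmetryOver W.toCohomologyData g χ)
    (X : SmProjVar k) : Module.End K (W.H X) := (hg.equiv X).toLinearMap

lemma IsSymmetryOver.lin_apply (hg : IsSymmetryOver W.toCohomologyData g χ) {X : SmProjVar k}
    (x : W.H X) : hg.lin X x = g X x := rfl

lemma IsSymmetryOver.lin_injective (hg : IsSymmetryOver W.toCohomologyData g χ)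
    (X : SmProjVar k) : Function.Injective (hg.lin X) := (hg.bijective X).injective

lemma IsSymmetryOver.pairing (hg : IsSymmetryOver W.toCohomologyData g χ) {X : SmProjVar k}
    (x y : W.H X) : W.pairing X (hg.lin X x) (hg.lin X y) = χ ^ X.dim * W.pairing X x y := by
  have h1 := hg.trace X (x * y)
  rw [hg.map_mul] at h1
  exact h1

/-- the extension of scalars of a symmetry -/
noncomputable def IsSymmetryOver.ext (hg : IsSymmetryOver W.toCohomologyData g χ)
    (Ω : Type t) [Field Ω] [Algebra K Ω] (X : SmProjVar k) : Ω ⊗[K] W.H X ≃ₐ[Ω] Ω ⊗[K] W.H X :=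
  Algebra.TensorProduct.congr AlgEquiv.refl (hg.equiv X)

lemma IsSymmetryOver.ext_tmul (hg : IsSymmetryOver W.toCohomologyData g χ)
    (Ω : Type t) [Field Ω] [Algebra K Ω] {X : SmProjVar k} (a : Ω) (x : W.H X) :
    hg.ext Ω X (a ⊗ₜ[K] x) = a ⊗ₜ[K] g X x := rfl

/-- the extension of scalars of a symmetry is a symmetry -/
theorem IsSymmetryOver.isSymmetry (hg : IsSymmetryOver W.toCohomologyData g χ)
    (Ω : Type t) [Field Ω] [Algebra K Ω] :
    Obs.IsSymmetry W.toCohomologyData Ω (fun X => hg.ext Ω X) (algebraMap K Ω χ) where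
  aut X := ⟨(hg.ext Ω X).bijective, _root_.map_add _, _root_.map_smul _, _root_.map_one _,
    _root_.map_mul _⟩
  pull {X Y} f φ hφ z := by
    rw [eq_pullΩ W Ω f hφ, eq_pullΩ W Ω f hφ]
    induction z using TensorProduct.induction_on with
    | zero => rw [map_zero, map_zero, map_zero, map_zero]
    | tmul a x =>
      rw [WeilCohomology.pullΩ_tmul, hg.ext_tmul, hg.ext_tmul, WeilCohomology.pullΩ_tmul]
      exact congrArg (fun y => a ⊗ₜ[K] y) (hg.pull f x)
    | add x y hx hy => rw [_root_.map_add, _root_.map_add, _root_.map_add, _root_.map_add, hx, hy]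
  ne_zero := (_root_.map_ne_zero _).mpr hg.ne_zero
  cycle X j c := by
    rw [hg.ext_tmul, hg.cycle, TensorProduct.tmul_smul, TensorProduct.smul_tmul',
      Algebra.smul_def, map_pow, mul_one]
  trace X τ hτ z := by
    rw [eq_trΩ W Ω hτ, eq_trΩ W Ω hτ]
    induction z using TensorProduct.induction_on with
    | zero => rw [map_zero, map_zero, mul_zero]
    | tmul a x =>
      rw [hg.ext_tmul, WeilCohomology.trΩ_tmul, WeilCohomology.trΩ_tmul]
      have h1 : W.trL X (g X x) = χ ^ X.dim * W.trL X x := hg.trace X x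
      rw [h1, Algebra.smul_def, Algebra.smul_def, _root_.map_mul, map_pow]
      ring
    | add x y hx hy =>
      rw [_root_.map_add, _root_.map_add, _root_.map_add, hx, hy, mul_add]

/-- a subspace with a characteristic polynomial is stable -/
lemma mem_of_isCharpolyOn' (hg : IsSymmetryOver W.toCohomologyData g χ) {V : SmProjVar k}
    {E : Submodule K (W.H V)} {P : K[X]} (hP : IsCharpolyOn (g V) E P) :
    ∀ y ∈ E, hg.lin V y ∈ E := by
  obtain ⟨n, b, A, hA, -⟩ := hP
  intro y hy
  have h1 : y = ∑ i, b.repr ⟨y, hy⟩ i • (b i : W.H V) := by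
    have h4 := congrArg (Submodule.subtype E) (b.sum_repr ⟨y, hy⟩).symm
    rw [map_sum] at h4
    refine h4.trans (sum_congr rfl fun i _ => ?_)
    rw [map_smul]
    rfl
  rw [h1, map_sum]
  refine Submodule.sum_mem _ fun i _ => ?_
  rw [map_smul, hg.lin_apply, hA]
  exact Submodule.smul_mem _ _ (Submodule.sum_mem _ fun j _ => Submodule.smul_mem _ _ (b j).2)

/-- the characteristic polynomial of a symmetry on a stable subspace -/
lemma charpoly_of_isCharpolyOn' (hg : IsSymmetryOver W.toCohomologyData g χ) {V : SmProjVar k}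
    {S : Submodule K (W.H V)} (hS : ∀ x ∈ S, hg.lin V x ∈ S) {P : K[X]}
    (hP : IsCharpolyOn (g V) S P) : P = ((hg.lin V).restrict hS).charpoly := by
  obtain ⟨n, b, A, hA, rfl⟩ := hP
  exact (charpoly_eq_of_basis (hg.lin V) S hS b A hA).1.symm

/-- the characteristic polynomial of a symmetry on a stable subspace -/
lemma isCharpolyOn_charpoly' (hg : IsSymmetryOver W.toCohomologyData g χ) {V : SmProjVar k}
    {S : Submodule K (W.H V)} (hS : ∀ x ∈ S, hg.lin V x ∈ S) :
    IsCharpolyOn (g V) S ((hg.lin V).restrict hS).charpoly := by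
  let b := Module.finBasis K S
  refine ⟨Module.finrank K S, b, LinearMap.toMatrix b b ((hg.lin V).restrict hS), fun j => ?_, ?_⟩
  · have h4 := congrArg (Submodule.subtype S) (b.sum_repr ((hg.lin V).restrict hS (b j))).symm
    rw [map_sum] at h4
    refine h4.trans (sum_congr rfl fun i _ => ?_)
    rw [map_smul, LinearMap.toMatrix_apply]
    rfl
  · rw [LinearMap.charpoly_toMatrix]

/-- the determinant of a symmetry with coefficients in an algebraic closure -/
lemma isDetOn_lin (hg : IsSymmetryOver W.toCohomologyData g χ) {V : SmProjVar k}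
    {F : Submodule K (W.H V)} (hF : ∀ x ∈ F, hg.lin V x ∈ F) :
    IsDetOn (AlgebraicClosure K) (hg.ext (AlgebraicClosure K) V) F
      (algebraMap K (AlgebraicClosure K) (LinearMap.det ((hg.lin V).restrict hF))) := by
  let b := Module.finBasis K F
  refine ⟨Module.finrank K F, b, (LinearMap.toMatrix b b ((hg.lin V).restrict hF)).map
    (algebraMap K (AlgebraicClosure K)), fun j => ?_, ?_⟩
  · have h4 := congrArg (Submodule.subtype F) (b.sum_repr ((hg.lin V).restrict hF (b j))).symm
    rw [map_sum] at h4
    have h5 : g V (b j : W.H V) =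
        ∑ i, (LinearMap.toMatrix b b ((hg.lin V).restrict hF)) i j • (b i : W.H V) := by
      refine h4.trans (sum_congr rfl fun i _ => ?_)
      rw [map_smul, LinearMap.toMatrix_apply]
      rfl
    rw [hg.ext_tmul, h5, TensorProduct.tmul_sum]
    refine sum_congr rfl fun i _ => ?_
    rw [TensorProduct.tmul_smul, Matrix.map_apply, algebraMap_smul]
  · rw [← RingHom.mapMatrix_apply, ← RingHom.map_det, LinearMap.det_toMatrix]

/-- the eigenvalue group of a symmetry -/
lemma eigenvalueGroup_le' (hg : IsSymmetryOver W.toCohomologyData g χ) (X : SmProjVar k) :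
    eigenvalueGroup W.toCohomologyData X (AlgebraicClosure K)
      (fun X => hg.ext (AlgebraicClosure K) X) (algebraMap K (AlgebraicClosure K) χ) ≤
        symmetryGroup W.toCohomologyData X g χ := by
  unfold eigenvalueGroup symmetryGroup
  refine Subgroup.closure_mono ?_
  rintro a (ha | ⟨y, hy, hay⟩)
  · exact .inl ha
  · have hfin : Module.Finite K (W.H X) := (W.graded X).finite
    refine .inr (exists_eigenform (hg.lin X) (a : AlgebraicClosure K) y hy ?_)
    rw [← hay]
    have key : ∀ y : AlgebraicClosure K ⊗[K] W.H X,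
        (hg.lin X).baseChange (AlgebraicClosure K) y = hg.ext (AlgebraicClosure K) X y := by
      intro y
      induction y using TensorProduct.induction_on with
      | zero => rw [map_zero, map_zero]
      | tmul a x => rw [LinearMap.baseChange_tmul, hg.ext_tmul]; rfl
      | add x y hx hy => rw [map_add, map_add, hx, hy]
    exact key y

/-- the characteristic polynomial of a symmetry on an isotropic subspace of a piece -/
lemma charpoly_isotropic_piece' (hg : IsSymmetryOver W.toCohomologyData g χ) {V : SmProjVar k}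
    {E : Submodule K (W.H V)} {u : W.H V → W.H V}
    (huE : ∀ y, u y ∈ E ∧ ∀ x ∈ E, W.pairing V x (u y) = W.pairing V x y)
    (hfr : ∀ y ∈ E, hg.lin V y ∈ E) {F : Submodule K (W.H V)}
    (hF : ∀ x ∈ F, hg.lin V x ∈ F) (hle : F ≤ E)
    (hiso : IsTotallyIsotropic W.toCohomologyData V F) :
    ((hg.lin V).restrict hF).charpoly *
      dualPoly (χ ^ V.dim) ((hg.lin V).restrict hF).charpoly ∣
        ((hg.lin V).restrict hfr).charpoly := by
  have hF' : ∀ x ∈ F.submoduleOf E, (hg.lin V).restrict hfr x ∈ F.submoduleOf E :=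
    fun x hx => hF _ hx
  let B : E →ₗ[K] E →ₗ[K] K :=
    LinearMap.mk₂ K (fun x y => W.trL V (x * y))
      (fun a b c => by rw [Submodule.coe_add, add_mul, map_add])
      (fun a b c => by rw [Submodule.coe_smul, smul_mul_assoc, map_smul])
      (fun a b c => by rw [Submodule.coe_add, mul_add, map_add])
      (fun a b c => by rw [Submodule.coe_smul, mul_smul_comm, map_smul])
  have hB : ∀ x y, B x y = W.pairing V x y := fun _ _ => rfl
  have h1 := charpoly_mul_dual_dvd B (fun y hy => Subtype.ext (nondegenerate_E huE y.2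
      fun x hx => hy ⟨x, hx⟩)) ((hg.lin V).restrict hfr) (pow_ne_zero V.dim hg.ne_zero)
    (fun x y => by rw [hB, hB]; exact hg.pairing _ _)
    (F.submoduleOf E) hF' (fun x hx y hy => hiso _ hx _ hy)
  rw [charpoly_submoduleOf (hg.lin V) hF hfr hle hF'] at h1
  exact h1

omit [CharZero K] in
lemma relation_aux' {Ω : Type*} [Field Ω] [Algebra K Ω] {n N : ℕ} (δ : Fin n → Fin N → Ωˣ)
    (d g : Fin n → Fin N → K) (h1 : ∀ c i, (δ c i : Ω) = algebraMap K Ω (d c i))
    (h2 : ∀ c i, d c i ^ 2 = g c i ^ 2) (m : ℕ) :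
    ((((∏ c, ∏ i, δ c i) ^ m) ^ 2 : Ωˣ) : Ω) =
      algebraMap K Ω ((∏ c, ∏ i, g c i) ^ (m * 2)) := by
  rw [← pow_mul, Units.val_pow_eq_pow_val, Units.coe_prod, map_pow, map_prod, mul_comm m 2,
    pow_mul, pow_mul]
  congr 1
  rw [← prod_pow, ← prod_pow]
  refine prod_congr rfl fun c _ => ?_
  rw [Units.coe_prod, map_prod, ← prod_pow, ← prod_pow]
  refine prod_congr rfl fun i _ => ?_
  rw [h1, ← map_pow, ← map_pow, h2]

/-- the subspaces of related flags are stable -/
lemma isStableSubspace_of_related {X : SmProjVar k} {n : ℕ} {V : Fin n → SmProjVar k}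
    {E : ∀ c, Submodule K (W.H (V c))} {F : ∀ c : Fin n, ℕ → Submodule K (W.H (V c))}
    (hF : AreRelatedFlags.{u, v, w, v} W.toCohomologyData X V E F) (c : Fin n) (i : ℕ) :
    IsStableSubspace W.toCohomologyData V E c (F c i) where
  correspondences u hu huE y hy := hF.correspondences c c u hu huE i y hy
  symmetries g χ hg hgE y hy := by
    refine mem_of_one_mem_baseChange (AlgebraicClosure K) ?_
    have h1 := hF.symmetries (AlgebraicClosure K) (fun X => hg.ext (AlgebraicClosure K) X)
      (algebraMap K (AlgebraicClosure K) χ) (hg.isSymmetry (AlgebraicClosure K))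
      (fun c' y hy => by
        rw [hg.ext_tmul]
        exact Submodule.tmul_mem_baseChange_of_mem 1 (hgE c' y hy)) c i y hy
    rwa [hg.ext_tmul] at h1

/-- **There are no related flags in multiplicity free pieces without relations between the factors
of the characteristic polynomials of a symmetry.** -/
theorem flags_eq_bot_of_no_relation' (hg : IsSymmetryOver W.toCohomologyData g χ)
    {X : SmProjVar k} {n : ℕ} {V : Fin n → SmProjVar k}
    {E : ∀ c, Submodule K (W.H (V c))} (hE : ∀ c, IsPiece W.toCohomologyData (V c) (E c))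
    {P : Fin n → K[X]} (hP : AreMultiplicityFree W.toCohomologyData V E g P)
    (hrel : ∀ Q, IsFactorRelation W.toCohomologyData X V g χ P Q → ∀ c, Q c = 1)
    (F : ∀ c : Fin n, ℕ → Submodule K (W.H (V c)))
    (hF : AreRelatedFlags.{u, v, w, v} W.toCohomologyData X V E F) :
    ∀ c i, F c i = ⊥ := by
  classical
  have hfin : ∀ V, Module.Finite K (W.H V) := fun V => (W.graded V).finite
  have hfrE : ∀ c, ∀ y ∈ E c, hg.lin (V c) y ∈ E c := fun c =>
    mem_of_isCharpolyOn' hg (hP.charpoly c)
  have hst : ∀ c i, ∀ x ∈ F c i, hg.lin (V c) x ∈ F c i := fun c i x hx =>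
    (isStableSubspace_of_related hF c i).symmetries g χ hg hfrE x hx
  obtain ⟨f, hf⟩ : ∃ f : Fin n → ℕ → K[X], ∀ c i,
      f c i = ((hg.lin (V c)).restrict (hst c i)).charpoly := ⟨_, fun _ _ => rfl⟩
  have hmonic : ∀ c i, (f c i).Monic := fun c i => by
    rw [hf]
    exact LinearMap.charpoly_monic _
  have hdvd : ∀ c i, f c i ∣ f c 0 := fun c i => by
    rw [hf, hf]
    exact charpoly_restrict_dvd (hg.lin (V c)) (F c 0) (F c i) (hst c 0) (hst c i)
      (hF.antitone c (Nat.zero_le i))
  have hfP : ∀ c, f c 0 * dualPoly (χ ^ (V c).dim) (f c 0) ∣ P c := by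
    intro c
    obtain ⟨u, -, huE⟩ := (hE c).projector
    rw [charpoly_of_isCharpolyOn' hg (hfrE c) (hP.charpoly c), hf]
    exact charpoly_isotropic_piece' hg huE (hfrE c) (hst c 0) (hF.le c 0) (hF.isotropic c 0)
  -- `f c 0` is prime to its dual
  have hfcop : ∀ c, IsCoprime (f c 0) (dualPoly (χ ^ (V c).dim) (f c 0)) := by
    intro c
    obtain ⟨g', hg'⟩ := hfP c
    rw [mul_assoc] at hg'
    have h1 := hP.coprime c (F c 0) (hF.le c 0) (isStableSubspace_of_related hF c 0) _ _
      (isCharpolyOn_charpoly' hg (hst c 0)) (by rw [← hf]; exact hg')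
    rw [← hf] at h1
    exact h1.of_mul_right_left
  have hdeg : ∀ c i, f c i = 1 → F c i = ⊥ := by
    intro c i h
    have h3 : Module.finrank K (F c i) = 0 := by
      rw [← LinearMap.charpoly_natDegree ((hg.lin (V c)).restrict (hst c i)), ← hf, h,
        natDegree_one]
    exact Submodule.finrank_eq_zero.mp h3
  have hdet : ∀ c i, LinearMap.det ((hg.lin (V c)).restrict (hst c i)) ^ 2 =
      (f c i).coeff 0 ^ 2 := by
    intro c i
    rw [hf]
    exact det_restrict_sq (hg.lin (V c)) (F c i) (hst c i)
  clear hf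
  obtain ⟨N, hN⟩ := hF.eventually_zero
  obtain ⟨Q, hQ⟩ : ∃ Q : Fin n → K[X], ∀ c, Q c = ∏ i : Fin N, f c i := ⟨_, fun _ => rfl⟩
  have hQf : ∀ c (p : K[X]), Prime p → p ∣ Q c → p ∣ f c 0 := by
    intro c p hp hpQ
    rw [hQ] at hpQ
    obtain ⟨i, -, hi⟩ := (hp.dvd_finsetProd_iff _).mp hpQ
    exact hi.trans (hdvd c i)
  -- the relation
  let δ : ∀ c : Fin n, Fin N → (AlgebraicClosure K)ˣ := fun c i =>
    Units.mk0 (algebraMap K (AlgebraicClosure K)
      (LinearMap.det ((hg.lin (V c)).restrict (hst c i))))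
      (fun h0 => det_restrict_ne_zero (hg.lin (V c)) (hg.lin_injective (V c)) (F c i) (hst c i)
        ((algebraMap K (AlgebraicClosure K)).injective (by rw [h0, map_zero])))
  obtain ⟨m, hm, hrel'⟩ := hF.relation (AlgebraicClosure K)
    (fun X => hg.ext (AlgebraicClosure K) X) (algebraMap K (AlgebraicClosure K) χ)
    (hg.isSymmetry (AlgebraicClosure K))
    (fun c y hy => by
      rw [hg.ext_tmul]
      exact Submodule.tmul_mem_baseChange_of_mem 1 (hfrE c y hy))
    N δ hN (fun c i => isDetOn_lin hg (hst c i))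
  have h5 := relation_aux' (Ω := AlgebraicClosure K) δ
    (fun c i => LinearMap.det ((hg.lin (V c)).restrict (hst c i)))
    (fun c (i : Fin N) => (f c i).coeff 0) (fun c i => Units.val_mk0 _)
    (fun c i => hdet c i) m
  have h6 : ∀ c, ∏ i : Fin N, (f c i).coeff 0 = (Q c).coeff 0 := fun c => by
    rw [hQ, coeff_zero_prod]
  simp only [h6] at h5
  have hQ1 : ∀ c, Q c = 1 := by
    refine hrel Q ⟨fun c => ?_, fun c p hp hpQ => ?_,
      fun c => ?_, m * 2, by omega, _, eigenvalueGroup_le' hg X (Subgroup.pow_mem _ hrel' 2), h5⟩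
    · rw [hQ]
      exact monic_prod_of_monic _ _ fun i _ => hmonic c i
    · exact (hQf c p hp.prime hpQ).trans ((Dvd.intro _ rfl).trans (hfP c))
    · rw [hQ]
      refine IsCoprime.prod_left fun i _ => ?_
      rw [dual_prod]
      refine IsCoprime.prod_right fun j _ => ?_
      exact ((hfcop c).of_isCoprime_of_dvd_left (hdvd c i)).of_isCoprime_of_dvd_right
        (dual_dvd_dual (hdvd c j))
  -- conclusion
  intro c i
  by_cases hi : i < N
  · have h1 : f c (⟨i, hi⟩ : Fin N) ∣ ∏ i : Fin N, f c i :=
      dvd_prod_of_mem (fun i : Fin N => f c i) (mem_univ (⟨i, hi⟩ : Fin N))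
    rw [← hQ, hQ1 c] at h1
    exact hdeg c i ((hmonic c i).eq_one_of_isUnit (isUnit_of_dvd_one h1))
  · rw [eq_bot_iff, ← hN c]
    exact hF.antitone c (not_lt.mp hi)

/-- **The standard conjecture D and relations between the factors of a symmetry.** -/
theorem standardD_of_no_relation' (hg : IsSymmetryOver W.toCohomologyData g χ)
    {X : SmProjVar k} (hX : ∀ n, W.StandardD (power X n))
    {n : ℕ} {V : Fin n → SmProjVar k} {E : ∀ c, Submodule K (W.H (V c))}
    (hE : ∀ c, IsPiece W.toCohomologyData (V c) (E c)) {P : Fin n → K[X]}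
    (hP : AreMultiplicityFree W.toCohomologyData V E g P)
    (hrel : ∀ Q, IsFactorRelation W.toCohomologyData X V g χ P Q → ∀ c, Q c = 1) (b : ℕ)
    {Y : SmProjVar k} (hY : SpannedBy W.toCohomologyData X V E b Y) : W.StandardD Y :=
  Can.standardD_of_numTrivialOrthogonal W
    (numTrivialOrthogonal_of_no_flags.{u, v, w, v} W hX V E hE
      (flags_eq_bot_of_no_relation' hg hE hP hrel) b) hY

end symmetry

section frobenius

variable {k : Type u} [Field k] [Finite k] {K : Type v} [Field K] [CharZero K]
  (W : WeilCohomology.{u, v, w} k K)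

/-- **The Frobenius endomorphism is a symmetry of every Weil cohomology theory** over a finite
field with `q` elements, with multiplier `q`. -/
theorem isSymmetryOver_frob :
    IsSymmetryOver W.toCohomologyData (fun X => W.pull (frob X)) (Nat.card k : K) where
  bijective X := ⟨pull_frob_injective W X, pull_frob_surjective W X⟩
  map_add X := (W.pull_hom (frob X)).map_add
  map_smul X := (W.pull_hom (frob X)).map_smul
  map_one X := (W.pull_hom (frob X)).map_one
  map_mul X := (W.pull_hom (frob X)).map_mul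
  pull {X Y} f y := by
    have h1 := DFunLike.congr_fun (congrArg W.pullA (frob_comp f)) y
    rw [W.pullA_comp, W.pullA_comp] at h1
    exact h1
  ne_zero := card_ne_zero'
  cycle X j c := pull_frob_cy W X j c
  trace X x := tr_frob W X x

end frobenius

end Pool.Agent.Helper11.Zt
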